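import Pool.Agent.H43.CE.Defs

/-!
# CE, job N-Bdg : block diagonal parts of upper triangular matrices

`bdg bl b i j = if bl i = bl j then b i j else 0`.
* `bdg_mul`: for upper triangular `b, c` and monotone `bl`.  `(b * c) i j = ∑ k, b i k * c k j`; a nonzero term has `i ≤ k ≤ j`; if
  `bl i = bl j` then `bl k = bl i` (monotone), so the sums agree; if `bl i ≠ bl j` every term of `(bdg b * bdg c) i j` is 0.
* `bdg_transv`: entrywise (`Matrix.transvection i j c = 1 + Matrix.single i j c`).
* `mulVec_bdg_mul`: `bdg_mul` and `Matrix.mulVec_mulVec`.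
-/

open MvPolynomial

noncomputable section

namespace CE

open CMT

variable {n : ℕ} {R : Type*} [CommRing R]

theorem bdg_apply (bl : Fin n → ℕ) (b : Matrix (Fin n) (Fin n) R) (i j : Fin n) :
    bdg bl b i j = if bl i = bl j then b i j else 0 := rfl

theorem bdg_one (bl : Fin n → ℕ) : bdg bl (1 : Matrix (Fin n) (Fin n) R) = 1 := by
  ext i j
  rw [bdg_apply]
  by_cases h : i = j
  · rw [h, if_pos rfl]
  · rw [Matrix.one_apply_ne h, ite_self]

theorem bdg_mul {bl : Fin n → ℕ} (hbl : Monotone bl) {b c : Matrix (Fin n) (Fin n) R}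
    (hb : ∀ i j, j < i → b i j = 0) (hc : ∀ i j, j < i → c i j = 0) :
    bdg bl (b * c) = bdg bl b * bdg bl c := by
  ext i j
  rw [bdg_apply, Matrix.mul_apply, Matrix.mul_apply]
  by_cases h : bl i = bl j
  · rw [if_pos h]
    refine Finset.sum_congr rfl (fun k _ => ?_)
    rw [bdg_apply, bdg_apply]
    by_cases h1 : i ≤ k
    · by_cases h2 : k ≤ j
      · have h3 : bl i ≤ bl k := hbl h1
        have h4 : bl k ≤ bl j := hbl h2
        rw [if_pos (by omega), if_pos (by omega)]
      · rw [hc k j (not_le.1 h2)]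
        simp
    · rw [hb i k (not_le.1 h1)]
      simp
  · rw [if_neg h]
    symm
    refine Finset.sum_eq_zero (fun k _ => ?_)
    rw [bdg_apply, bdg_apply]
    by_cases h1 : bl i = bl k
    · rw [if_neg (fun h2 : bl k = bl j => h (h1.trans h2)), mul_zero]
    · rw [if_neg h1, zero_mul]

theorem bdg_upper (bl : Fin n → ℕ) {b : Matrix (Fin n) (Fin n) ℂ} (hb : IsUpper b) :
    IsUpper (bdg bl b) := by
  refine ⟨fun i j hij => ?_, fun i => ?_⟩
  · rw [bdg_apply, hb.1 i j hij, ite_self]
  · rw [bdg_apply, if_pos rfl]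
    exact hb.2 i

theorem bdg_transv_eq (bl : Fin n → ℕ) {i j : Fin n} (h : bl i = bl j) (c : R) :
    bdg bl (Matrix.transvection i j c) = Matrix.transvection i j c := by
  ext k l
  rw [bdg_apply]
  by_cases hkl : bl k = bl l
  · rw [if_pos hkl]
  · rw [if_neg hkl, Matrix.transvection, Matrix.add_apply,
      Matrix.one_apply_ne (fun e => hkl (by rw [e])), zero_add, Matrix.single_apply]
    rw [if_neg]
    rintro ⟨rfl, rfl⟩
    exact hkl h

theorem bdg_transv_ne (bl : Fin n → ℕ) {i j : Fin n} (h : bl i ≠ bl j) (c : R) :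
    bdg bl (Matrix.transvection i j c) = 1 := by
  ext k l
  rw [bdg_apply]
  by_cases hkl : bl k = bl l
  · rw [if_pos hkl, Matrix.transvection, Matrix.add_apply, Matrix.single_apply, if_neg, add_zero]
    rintro ⟨rfl, rfl⟩
    exact h hkl
  · rw [if_neg hkl, Matrix.one_apply_ne (fun e => hkl (by rw [e]))]

theorem bdg_map {S : Type*} [CommRing S] (f : R →+* S) (bl : Fin n → ℕ)
    (b : Matrix (Fin n) (Fin n) R) : (bdg bl b).map f = bdg bl (b.map f) := by
  ext i j
  rw [Matrix.map_apply, bdg_apply, bdg_apply, Matrix.map_apply]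
  split_ifs
  · rfl
  · exact map_zero f

end CE
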