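import Pool.Agent.H43.CE.N.PP2

/-!
# CE, job N-Dens : the condition `x' a ≠ 0` does not change the closure

* `VI_dens`: let `E' ⊆ E` and for every `p ∈ E` there are `d : Fin n → ℂ` and `s0 : ℂ` such that for all `s ≠ s0` the point with the same `inl` coordinates and
  `inr` coordinates `p (inr j) + s * d j` is in `E'`.  Then `VI E' = VI E`.  `⊇` is clear.  `⊆`: `f ∈ VI E'`, `p ∈ E`: the polynomial
  `P = aeval (Sum.elim (fun i => Polynomial.C (p (inl i))) (fun j => Polynomial.C (p (inr j)) + Polynomial.X * Polynomial.C (d j))) f ∈ ℂ[X]` satisfies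
  `P.eval s = aeval (that point) f = 0` for all `s ≠ s0`, so `P = 0` (`Polynomial.eq_zero_of_infinite_isRoot`), and `aeval p f = P.eval 0 = 0`.
* `VI_EE_dens`: `E = EE .. ∅`, `E' = EE .. {a}`; `p ∈ E` given by `b, b', x'`; take `d = (bdg bl b).mulVec (Pi.single a 1)` and `s0 = - x' a`: the new vector is
  `(bdg bl b).mulVec (x' + s • Pi.single a 1)`, its `a`-coordinate is `x' a + s`.  `a ∈ S` keeps the support in `S`.
* `VI_TT_dens`: the same.
-/

open MvPolynomial

noncomputable section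

namespace CE

open CMT

variable {n : ℕ}

theorem VI_dens {σ : Type} (E E' : Set ((σ ⊕ Fin n) → ℂ)) (hsub : E' ⊆ E)
    (h : ∀ p ∈ E, ∃ (d : Fin n → ℂ) (s0 : ℂ), ∀ s, s ≠ s0 →
      Sum.elim (fun i => p (Sum.inl i)) (fun j => p (Sum.inr j) + s * d j) ∈ E') :
    VI E' = VI E := by
  apply le_antisymm
  · intro f hf
    rw [mem_vanishingIdeal_iff] at hf ⊢
    intro p hp
    obtain ⟨d, s0, hd⟩ := h p hp
    set g : (σ ⊕ Fin n) → Polynomial ℂ :=
      Sum.elim (fun i => Polynomial.C (p (Sum.inl i)))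
        (fun j => Polynomial.C (p (Sum.inr j)) + Polynomial.X * Polynomial.C (d j)) with hg
    have h1 : ∀ s : ℂ, (aeval g f).eval s =
        aeval (Sum.elim (fun i => p (Sum.inl i)) (fun j => p (Sum.inr j) + s * d j)) f := by
      intro s
      have h2 : ((Polynomial.aeval s).comp (aeval g : MvPolynomial (σ ⊕ Fin n) ℂ →ₐ[ℂ] Polynomial ℂ)) =
          (aeval (Sum.elim (fun i => p (Sum.inl i)) (fun j => p (Sum.inr j) + s * d j)) :
            MvPolynomial (σ ⊕ Fin n) ℂ →ₐ[ℂ] ℂ) := by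
        apply MvPolynomial.algHom_ext
        intro i
        rcases i with i | j
        · simp [hg]
        · simp only [hg, AlgHom.comp_apply, aeval_X, Sum.elim_inr, map_add, map_mul,
            Polynomial.aeval_X, Polynomial.aeval_C, Algebra.algebraMap_self, RingHom.id_apply]
      have h3 := congrArg (fun φ => φ f) h2
      simpa [Polynomial.aeval_def] using h3
    have h4 : aeval g f = 0 := by
      apply Polynomial.eq_zero_of_infinite_isRoot
      have h5 : ({s0}ᶜ : Set ℂ).Infinite := (Set.finite_singleton s0).infinite_compl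
      apply h5.mono
      intro s hs
      have hs' : s ≠ s0 := hs
      show (aeval g f).IsRoot s
      rw [Polynomial.IsRoot.def, h1 s]
      exact hf _ (hd s hs')
    have h6 := h1 0
    rw [h4, Polynomial.eval_zero] at h6
    have h7 : (Sum.elim (fun i => p (Sum.inl i)) (fun j => p (Sum.inr j) + 0 * d j)) = p := by
      funext i
      rcases i with i | j
      · rfl
      · simp
    rw [h7] at h6
    exact h6.symm
  · exact vanishingIdeal_anti_mono hsub

theorem dens_PP {bl : Fin n → ℕ} {v : Equiv.Perm (Fin n)} {S : Finset (Fin n)} {a : Fin n}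
    {M : Matrix (Fin n) (Fin n) ℂ} {x : Fin n → ℂ} (ha : a ∈ S) (h : (M, x) ∈ PP bl v S ∅) :
    ∃ (d : Fin n → ℂ) (s0 : ℂ), ∀ s, s ≠ s0 → (M, fun j => x j + s * d j) ∈ PP bl v S {a} := by
  obtain ⟨b, b', x', hb, hb', hx, -, h1, h2⟩ := h
  refine ⟨(bdg bl b).mulVec (Pi.single a 1), -x' a, fun s hs => ?_⟩
  refine ⟨b, b', x' + s • Pi.single a 1, hb, hb', ?_, ?_, h1, ?_⟩
  · intro j hj
    have hja : j ≠ a := fun h => hj (h ▸ ha)
    simp [hx j hj, hja]
  · intro j hj
    rw [Finset.mem_singleton] at hj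
    subst hj
    simp only [Pi.add_apply, Pi.smul_apply, Pi.single_eq_same, smul_eq_mul, mul_one]
    intro h3
    apply hs
    exact eq_neg_of_add_eq_zero_right h3
  · rw [Matrix.mulVec_add, Matrix.mulVec_smul]
    simp only at h2 ⊢
    rw [h2]
    rfl

theorem dens_PP2 {bl : Fin n → ℕ} {w : Equiv.Perm (Fin n)} {q : ℕ} {hq : q + 1 < n}
    {S : Finset (Fin n)} {a : Fin n}
    {M : Matrix (Fin n) (Fin n) ℂ} {x : Fin n → ℂ} (ha : a ∈ S) (h : (M, x) ∈ PP2 bl q hq w S ∅) :
    ∃ (d : Fin n → ℂ) (s0 : ℂ), ∀ s, s ≠ s0 →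
      (M, fun j => x j + s * d j) ∈ PP2 bl q hq w S {a} := by
  obtain ⟨b, b', x', hb, hb', hx, -, h1, h2⟩ := h
  refine ⟨(bdg bl b).mulVec (Pi.single a 1), -x' a, fun s hs => ?_⟩
  refine ⟨b, b', x' + s • Pi.single a 1, hb, hb', ?_, ?_, h1, ?_⟩
  · intro j hj
    have hja : j ≠ a := fun h => hj (h ▸ ha)
    simp [hx j hj, hja]
  · intro j hj
    rw [Finset.mem_singleton] at hj
    subst hj
    simp only [Pi.add_apply, Pi.smul_apply, Pi.single_eq_same, smul_eq_mul, mul_one]
    intro h3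
    apply hs
    exact eq_neg_of_add_eq_zero_right h3
  · rw [Matrix.mulVec_add, Matrix.mulVec_smul]
    simp only at h2 ⊢
    rw [h2]
    rfl

theorem VI_EE_dens (bl : Fin n → ℕ) (y v : Equiv.Perm (Fin n)) {S : Finset (Fin n)} {a : Fin n}
    (ha : a ∈ S) : VI (EE bl y v S {a}) = VI (EE bl y v S ∅) := by
  apply VI_dens
  · intro z hz
    obtain ⟨b, b', x', hb, hb', hx, -, h1, h2⟩ := hz
    exact ⟨b, b', x', hb, hb', hx, by simp, h1, h2⟩
  · intro p hp
    exact dens_PP ha hp

theorem VI_TT_dens (bl : Fin n → ℕ) (y w : Equiv.Perm (Fin n)) (q : ℕ) (hq : q + 1 < n)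
    {S : Finset (Fin n)} {a : Fin n} (ha : a ∈ S) :
    VI (TT bl y w q hq S {a}) = VI (TT bl y w q hq S ∅) := by
  apply VI_dens
  · intro z hz
    obtain ⟨b, b', x', hb, hb', hx, -, h1, h2⟩ := hz
    exact ⟨b, b', x', hb, hb', hx, by simp, h1, h2⟩
  · intro p hp
    exact dens_PP2 ha hp

end CE
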