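import Pool.Agent.H43.CE.N.TypeTa

/-!
# CE, job N-TypeT : the step of type T (second part: `typeT_ne`, `typeT_mem`, `typeT_mem'`; the first part is TypeTa.lean)

`w` has a descent at `q`, `a = w q0 > b = w q1`, same block, `a ∈ S`, `b ∉ S`, `IsId bl w S`; `St = insert b S`.
(1) `b` is maximal in `S` and `St` for `w`: `i ∈ St`, `prc bl w b i`: `i ≠ b`, so `i ∈ S`, so `b ∈ S` by `IsId`, contradiction.
(2) `a` is maximal in `St` for `v = w * sr`: `i ∈ St` with `prc bl v a i`: `i ≠ b` (as `b < a`); `v⁻¹ a = q1`, so `v⁻¹ i > q+1`, so `w⁻¹ i = v⁻¹ i > q + 1 = w⁻¹ b`, `b < a < i`: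
    `prc bl w b i`, contradiction to (1).
(L5) `Tt_iff`: for `(M, x) ∈ PP bl w St {a}`: `Fm bl w (q+1) M x = 0 ↔ (M, x) ∈ PP bl w S {a}`.
   `→`: `M = β w β'`, `x = β^bl x'`; `Fm_semi` (k = q+1, `w ⟨q+1,_⟩ = b`, maximality (1)) gives `Fm = unit * x' b`, so `x' b = 0` and `x'` is supported in `S`.
   `←`: from a representation with `x'` supported in `S`: `x' b = 0`, `Fm_semi` with the set `S`.
(L6) `Tt_ne`: for `(M, x) ∈ PP bl (w * sr) St {a}`: `Fm bl w (q+1) M x ≠ 0`: by `Fm_rows` it is `- Fm bl (w*sr) (q+1) M x`, and by `Fm_semi` for `v = w * sr`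
   (`v ⟨q+1,_⟩ = a`, maximality (2)) this is `unit * x' a ≠ 0`.
(3) `typeT_ne`: `(g, x) ∈ PP2 bl q hq w St {a}`, suppose `A = B = 0`.  By `CMT.ab_ne` `aa ≠ 0` or `bb ≠ 0` (`g ∈ Cell2` by `pp2_cell2`).
   If `aa ≠ 0`: `t = bb / aa`: `g * xq t ∈ Cell (w * sr)` (`fibre2`), `(g * xq t, x) ∈ PP bl (w*sr) St {a}` (`pp2_mul_xq`, `pp2_v`), so `0 ≠ Fm .. (g * xq t) x = A t - B = 0` (`Fm_xq`).
   If `aa = 0`: `g * S = g * S * xq 0 ∈ Cell (w * sr)` (`fibre4`), `0 ≠ Fm .. (g * S * xq 0) x = A` (`Fm_sr_xq`).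
(4) `typeT_mem`: with `g, x, t` as in ChartMem: `gamX y ∈ EE bl y0 w S {a} ↔ (g * xq t, x) ∈ PP bl w S {a}`.
   `→`: `PP bl w S {a} ⊆ PP bl w St {a}`; `(g, x) ∈ PP2 bl q hq w St {a}` (`pp2_of_pp_w`, `pp2_mul_xq_iff`); (L5): `Fm = 0`, i.e. `A t = B`.
   `←`: `(g * xq t, x) ∈ PP2 .. St {a}`, `Fm (g * xq t) x = A t - B = 0`.  `g * xq t` is in `Cell2`; it is not in `Cell (w * sr)` (otherwise `pp2_v` and (L6));
   so it is in `Cell w` and `pp2_w` (with `St`, `N = {a}`, `b ∉ {a}`) and (L5).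
(5) `typeT_mem'`: the same with `g * S * xq t`.
`aeval y AX = Am bl q hq w g x`: `Fm_map` with the ring homomorphism `aeval y`, `Matrix.map_mul`, `permMat_map`, `lowMat_map`, `ext0_map` (as `CMT.aeval_aP` in Ch/C2.lean).
-/

open MvPolynomial

noncomputable section

namespace CE

open CMT

variable {n : ℕ} {q : ℕ} {hq : q + 1 < n} {bl : Fin n → ℕ} {w : Equiv.Perm (Fin n)}
  {S : Finset (Fin n)}

theorem typeT_core (hbl : Monotone bl) (hw : dsc w q hq)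
    (hid : IsId bl w S) (ha : w (q0 q hq) ∈ S) (hb : w (q1 q hq) ∉ S)
    (hab : bl (w (q1 q hq)) = bl (w (q0 q hq)))
    {M : Matrix (Fin n) (Fin n) ℂ} {x : Fin n → ℂ} :
    (M, x) ∈ PP bl w S {w (q0 q hq)} ↔
      (M, x) ∈ PP2 bl q hq w (insert (w (q1 q hq)) S) {w (q0 q hq)} ∧
        Fm bl w (q + 1) hq M x = 0 := by
  constructor
  · intro h
    have h1 : (M, x) ∈ PP bl w (insert (w (q1 q hq)) S) {w (q0 q hq)} := by
      obtain ⟨b, b', x', hb1, hb1', hx, hN, h1, h2⟩ := h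
      exact ⟨b, b', x', hb1, hb1', fun j hj => hx j fun hj' => hj (Finset.mem_insert_of_mem hj'),
        hN, h1, h2⟩
    exact ⟨pp2_of_pp_w h1, (Tt_iff hbl hw hid ha hb hab h1).2 h⟩
  · rintro ⟨h1, h2⟩
    rcases pp2_cell2 hw h1 with hc | hc
    · have hne : w (q1 q hq) ∉ ({w (q0 q hq)} : Finset (Fin n)) := by
        rw [Finset.mem_singleton]
        exact ne_of_lt hw
      have h3 := pp2_w hbl hw (fun _ _ => Finset.mem_insert_self _ _) hne h1 hc
      exact (Tt_iff hbl hw hid ha hb hab h3).1 h2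
    · exact absurd h2 (Tt_ne hbl hw hid ha hb hab (pp2_v hw h1 hc))

theorem typeT_ne (hbl : Monotone bl) (y0 : Equiv.Perm (Fin n)) (hw : dsc w q hq)
    (hid : IsId bl w S) (ha : w (q0 q hq) ∈ S) (hb : w (q1 q hq) ∉ S)
    (hab : bl (w (q1 q hq)) = bl (w (q0 q hq))) :
    ∀ y ∈ TT bl y0 w q hq (insert (w (q1 q hq)) S) {w (q0 q hq)},
      ¬ (aeval y (AX bl y0 w q hq) = 0 ∧ aeval y (BX bl y0 w q hq) = 0) := by
  intro y hy
  rintro ⟨hA, hB⟩
  rw [aeval_AX] at hA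
  rw [aeval_BX] at hB
  have h : (permMat ℂ y0 * lowMat (ext0 fun e => y (Sum.inl e)), fun j => y (Sum.inr j)) ∈
      PP2 bl q hq w (insert (w (q1 q hq)) S) {w (q0 q hq)} := hy
  set g := permMat ℂ y0 * lowMat (ext0 fun e => y (Sum.inl e)) with hg
  set x := fun j => y (Sum.inr j) with hx
  have hc := pp2_cell2 hw h
  by_cases haa : aa q hq w g = 0
  · have h1 : g * permMat ℂ (sr q hq) * xq q hq 0 ∈ Cell (w * sr q hq) :=
      (fibre4 hw hc 0).2 (by rw [haa, mul_zero])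
    have h2 := Tt_ne hbl hw hid ha hb hab (pp2_v hw (pp2_mul_xq (pp2_mul_sr h) 0) h1)
    rw [Fm_sr_xq, hA, hB] at h2
    exact h2 (by ring)
  · have h1 : g * xq q hq (bb q hq w g / aa q hq w g) ∈ Cell (w * sr q hq) :=
      (fibre2 hw hc _).2 (by field_simp)
    have h2 := Tt_ne hbl hw hid ha hb hab (pp2_v hw (pp2_mul_xq h _) h1)
    rw [Fm_xq, hA, hB] at h2
    exact h2 (by ring)

theorem typeT_mem (hbl : Monotone bl) (y0 : Equiv.Perm (Fin n)) (hw : dsc w q hq)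
    (hid : IsId bl w S) (ha : w (q0 q hq) ∈ S) (hb : w (q1 q hq) ∉ S)
    (hab : bl (w (q1 q hq)) = bl (w (q0 q hq))) (y : Option (Kap n q hq ⊕ Fin n) → ℂ) :
    gamX y ∈ EE bl y0 w S {w (q0 q hq)} ↔
      y ∈ Seq (TT bl y0 w q hq (insert (w (q1 q hq)) S) {w (q0 q hq)})
        (AX bl y0 w q hq) (BX bl y0 w q hq) := by
  have h1 : gamX y ∈ EE bl y0 w S {w (q0 q hq)} ↔
      (permMat ℂ y0 * lowMat (gam fun o => y (o.map Sum.inl)), fun j => y (some (Sum.inr j))) ∈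
        PP bl w S {w (q0 q hq)} := Iff.rfl
  have h2 : y ∈ Seq (TT bl y0 w q hq (insert (w (q1 q hq)) S) {w (q0 q hq)})
        (AX bl y0 w q hq) (BX bl y0 w q hq) ↔
      ((permMat ℂ y0 * lowMat (ext0 fun e => y (some (Sum.inl e))), fun j => y (some (Sum.inr j))) ∈
        PP2 bl q hq w (insert (w (q1 q hq)) S) {w (q0 q hq)} ∧
        aeval (fun i => y (some i)) (AX bl y0 w q hq) * y none =
          aeval (fun i => y (some i)) (BX bl y0 w q hq)) := Iff.rfl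
  rw [h1, h2, aeval_AX, aeval_BX, lowMat_gam, ← Matrix.mul_assoc]
  simp only [Option.map_some, Option.map_none]
  rw [typeT_core hbl hw hid ha hb hab, pp2_mul_xq_iff, Fm_xq, sub_eq_zero]

theorem typeT_mem' (hbl : Monotone bl) (y0 : Equiv.Perm (Fin n)) (hw : dsc w q hq)
    (hid : IsId bl w S) (ha : w (q0 q hq) ∈ S) (hb : w (q1 q hq) ∉ S)
    (hab : bl (w (q1 q hq)) = bl (w (q0 q hq))) (y : Option (Kap n q hq ⊕ Fin n) → ℂ) :
    gamX' y ∈ EE bl (y0 * sr q hq) w S {w (q0 q hq)} ↔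
      y ∈ Seq (TT bl y0 w q hq (insert (w (q1 q hq)) S) {w (q0 q hq)})
        (BX bl y0 w q hq) (AX bl y0 w q hq) := by
  have h1 : gamX' y ∈ EE bl (y0 * sr q hq) w S {w (q0 q hq)} ↔
      (permMat ℂ (y0 * sr q hq) * lowMat (gam' fun o => y (o.map Sum.inl)),
        fun j => y (some (Sum.inr j))) ∈ PP bl w S {w (q0 q hq)} := Iff.rfl
  have h2 : y ∈ Seq (TT bl y0 w q hq (insert (w (q1 q hq)) S) {w (q0 q hq)})
        (BX bl y0 w q hq) (AX bl y0 w q hq) ↔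
      ((permMat ℂ y0 * lowMat (ext0 fun e => y (some (Sum.inl e))), fun j => y (some (Sum.inr j))) ∈
        PP2 bl q hq w (insert (w (q1 q hq)) S) {w (q0 q hq)} ∧
        aeval (fun i => y (some i)) (BX bl y0 w q hq) * y none =
          aeval (fun i => y (some i)) (AX bl y0 w q hq)) := Iff.rfl
  rw [h1, h2, aeval_AX, aeval_BX, chart_s]
  simp only [Option.map_some, Option.map_none]
  rw [typeT_core hbl hw hid ha hb hab, pp2_mul_xq_iff, pp2_mul_sr_iff, Fm_sr_xq, sub_eq_zero,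
    eq_comm]

end CE
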