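import Pool.Agent.H43.CE.N.Base
import Pool.Agent.H43.CE.N.TypeT
import Pool.Agent.H43.CE.N.Dens

/-!
# CE, job N-Ind : normality of all strata (assembly)

`P y` : for all `v S`, `IsId bl v S → (EE bl y v S ∅).Nonempty → NormalCR (EE bl y v S ∅)`.  `CMT.down_induction` on `y` (B/B8.lean): `P rev` is `normal_base`; assume `asc y q hq` (not even
needed) and `P (y * sr q hq)`.  Let `v, S` be given with `IsId bl v S`, `(EE bl y v S ∅).Nonempty`.

`c` from `exists_gamX`, `c'` from `exists_gamX'`; `normal_iff_coord` translates between `EE` and `Sne`/`Seq` (nonemptiness too: `c.g_surj`).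

Case I: `asc v q hq`.  `w = v * sr` has a descent, `v = w * sr` (`mul_sr_sr`, `dsc_mul_iff`).
  `IsId bl w S`: `prc bl w i j → prc bl v i j`: `v⁻¹ i = sr (w⁻¹ i)`; for `w⁻¹ i < w⁻¹ j` we have `sr (w⁻¹ i) < sr (w⁻¹ j)` unless `w⁻¹ i = q0, w⁻¹ j = q1`, i.e. `i = w q0 > w q1 = j`, but `i < j`.
  `hS` for `w`: if `bl (w q1) = bl (w q0)` then `prc bl v (w q1) (w q0)` (`w q1 < w q0`; `v⁻¹ (w q1) = q0 < q1 = v⁻¹ (w q0)`), so `w q0 ∈ S → w q1 ∈ S`.
  `T = TT bl y w q hq S ∅`.  `EE bl y v S ∅` ↔ `Seq T a b` (`gamX_mem_eq`); `EE bl (y*sr) w S ∅` ↔ `Sne T b a` (`gamX'_mem_ne`), nonempty since `T` is (`CMT.Sne_nonempty_iff`), so normal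
  by `P (y * sr)`, so `NormalCR T` (`normal_of_Sne`).  `EE bl (y*sr) v S ∅` ↔ `Seq T b a` (`gamX'_mem_eq`), normal if nonempty.  `normal_Seq`.
Case II: `dsc v q hq`, `w = v`.
  II.a: `hS : bl (w q1) = bl (w q0) → w q0 ∈ S → w q1 ∈ S`.  `EE bl y w S ∅` ↔ `Sne T a b`, `EE bl (y*sr) w S ∅` ↔ `Sne T b a` with `T = TT bl y w q hq S ∅`; `normal_Sne_swap`.
  II.b: otherwise `hab : bl (w q1) = bl (w q0)`, `ha : w q0 ∈ S`, `hb : w q1 ∉ S`.  `St = insert (w q1) S`, `a0 = w q0`.
   `IsId bl w St`: `prc bl w i (w q1)`: `i < w q1 < w q0`, `w⁻¹ i < q1`, `w⁻¹ i ≠ q0` (`i ≠ w q0`), so `w⁻¹ i < q0` and `prc bl w i (w q0)`, so `i ∈ S`.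
   `VI (EE bl y w S ∅) = VI (EE bl y w S {a0})` (`VI_EE_dens`); nonempty too (`VI` equal: one is `⊤` iff the set is empty).
   `T = TT bl y w q hq St {a0}`, `EE bl y w S {a0}` ↔ `Seq T A B` (`typeT_mem`), `EE bl (y*sr) w S {a0}` ↔ `Seq T B A` (`typeT_mem'`).
   `NormalCR T`: `VI T = VI (TT bl y w q hq St ∅)` (`VI_TT_dens`); `EE bl (y*sr) w St ∅` ↔ `Sne (TT .. St ∅) b a` (`gamX'_mem_ne`; `hS` for `St` holds since `w q1 ∈ St`), normal by `P (y*sr)`
   (nonempty since `TT .. St ∅ ⊇ T` is nonempty as `Seq T A B` is nonempty), so `NormalCR (TT .. St ∅)`, so `NormalCR T`.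
   `Seq T B A` nonempty → `EE bl (y*sr) w S {a0}` nonempty and with the same `VI` as `EE bl (y*sr) w S ∅`, normal by `P (y*sr)`.  `normal_Seq` with `typeT_ne`.
-/

open MvPolynomial

noncomputable section

namespace CE

open CMT

variable {n : ℕ}

theorem VI_eq_top_iff {ι : Type} (S : Set (ι → ℂ)) : VI S = ⊤ ↔ ¬ S.Nonempty := by
  rw [Ideal.eq_top_iff_one, mem_vanishingIdeal_iff]
  constructor
  · rintro h ⟨x, hx⟩
    have := h x hx
    rw [map_one] at this
    exact one_ne_zero this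
  · intro h x hx
    exact absurd ⟨x, hx⟩ h

theorem ind_nonempty_congr {ι : Type} {S S' : Set (ι → ℂ)} (h : VI S = VI S')
    (hS : S.Nonempty) : S'.Nonempty := by
  by_contra hc
  have h1 := (VI_eq_top_iff S').2 hc
  rw [← h] at h1
  exact (VI_eq_top_iff S).1 h1 hS

theorem ind_sr_lt {q : ℕ} {hq : q + 1 < n} {a b : Fin n} (h : a < b)
    (hne : ¬ (a = q0 q hq ∧ b = q1 q hq)) : sr q hq a < sr q hq b := by
  have hlt : a.val < b.val := h
  by_cases ha0 : a = q0 q hq
  · have hb1 : b ≠ q1 q hq := fun hb => hne ⟨ha0, hb⟩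
    have hb0 : b ≠ q0 q hq := by
      rintro rfl
      rw [ha0] at h
      exact lt_irrefl _ h
    rw [ha0, sr_q0, sr_ne q hq hb0 hb1]
    show (q1 q hq).val < b.val
    have h1 : b.val ≠ q + 1 := fun hh => hb1 (Fin.ext hh)
    have h2 : a.val = q := by rw [ha0]; rfl
    show q + 1 < b.val
    omega
  · by_cases ha1 : a = q1 q hq
    · have h2 : a.val = q + 1 := by rw [ha1]; rfl
      have hb1 : b ≠ q1 q hq := by
        rintro rfl
        rw [ha1] at h
        exact lt_irrefl _ h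
      have hb0 : b ≠ q0 q hq := by
        rintro rfl
        have : (q0 q hq).val = q := rfl
        omega
      rw [ha1, sr_q1, sr_ne q hq hb0 hb1]
      show q < b.val
      omega
    · rw [sr_ne q hq ha0 ha1]
      have h0 : a.val ≠ q := fun hh => ha0 (Fin.ext hh)
      have h1 : a.val ≠ q + 1 := fun hh => ha1 (Fin.ext hh)
      by_cases hb0 : b = q0 q hq
      · rw [hb0, sr_q0]
        have h2 : b.val = q := by rw [hb0]; rfl
        show a.val < q + 1
        omega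
      · by_cases hb1 : b = q1 q hq
        · rw [hb1, sr_q1]
          have h2 : b.val = q + 1 := by rw [hb1]; rfl
          show a.val < q
          omega
        · rw [sr_ne q hq hb0 hb1]
          exact h

theorem ind_inv_self (v : Equiv.Perm (Fin n)) (i : Fin n) : v⁻¹ (v i) = i := by simp

theorem ind_inv_mul_sr (w : Equiv.Perm (Fin n)) (q : ℕ) (hq : q + 1 < n) (i : Fin n) :
    (w * sr q hq)⁻¹ i = sr q hq (w⁻¹ i) := by
  rw [Equiv.Perm.inv_eq_iff_eq, Equiv.Perm.mul_apply, sr_sr_apply]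
  simp

/-- the ideal property passes to the larger element -/
theorem ind_isId_up {bl : Fin n → ℕ} {w : Equiv.Perm (Fin n)} {q : ℕ} {hq : q + 1 < n}
    (hw : dsc w q hq) {S : Finset (Fin n)} (hid : IsId bl (w * sr q hq) S) : IsId bl w S := by
  intro i j hj hp
  refine hid i j hj ⟨hp.1, hp.2.1, ?_⟩
  rw [ind_inv_mul_sr, ind_inv_mul_sr]
  refine ind_sr_lt hp.2.2 ?_
  rintro ⟨h1, h2⟩
  have h3 : w (q0 q hq) = i := by rw [← h1]; simp
  have h4 : w (q1 q hq) = j := by rw [← h2]; simp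
  have h5 : w (q1 q hq) < w (q0 q hq) := hw
  rw [h3, h4] at h5
  exact lt_asymm h5 hp.1

theorem ind_hS {bl : Fin n → ℕ} {w : Equiv.Perm (Fin n)} {q : ℕ} {hq : q + 1 < n}
    (hw : dsc w q hq) {S : Finset (Fin n)} (hid : IsId bl (w * sr q hq) S)
    (h : bl (w (q1 q hq)) = bl (w (q0 q hq))) (h0 : w (q0 q hq) ∈ S) : w (q1 q hq) ∈ S := by
  refine hid _ _ h0 ⟨hw, h, ?_⟩
  rw [ind_inv_mul_sr, ind_inv_mul_sr]
  rw [ind_inv_self, ind_inv_self, sr_q0, sr_q1]
  show q < q + 1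
  omega

theorem ind_isId_insert {bl : Fin n → ℕ} {w : Equiv.Perm (Fin n)} {q : ℕ} {hq : q + 1 < n}
    (hw : dsc w q hq) {S : Finset (Fin n)} (hid : IsId bl w S) (ha : w (q0 q hq) ∈ S)
    (hab : bl (w (q1 q hq)) = bl (w (q0 q hq))) : IsId bl w (insert (w (q1 q hq)) S) := by
  intro i j hj hp
  rw [Finset.mem_insert] at hj ⊢
  right
  rcases hj with rfl | hj
  · obtain ⟨h1, h2, h3⟩ := hp
    rw [ind_inv_self] at h3
    have hw' : w (q1 q hq) < w (q0 q hq) := hw
    have h4 : w⁻¹ i ≠ q0 q hq := by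
      intro h
      have h5 : w (q0 q hq) = i := by rw [← h]; simp
      rw [h5] at hw'
      exact lt_asymm hw' h1
    refine hid i _ ha ⟨h1.trans hw', h2.trans hab, ?_⟩
    rw [ind_inv_self]
    have h5 : (w⁻¹ i).val < q + 1 := h3
    have h6 : (w⁻¹ i).val ≠ q := fun hh => h4 (Fin.ext hh)
    show (w⁻¹ i).val < q
    omega
  · exact hid i j hj hp

theorem ind_step {bl : Fin n → ℕ} (hbl : Monotone bl) (y : Equiv.Perm (Fin n)) (q : ℕ)
    (hq : q + 1 < n)
    (ih : ∀ (v : Equiv.Perm (Fin n)) (S : Finset (Fin n)), IsId bl v S →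
      (EE bl (y * sr q hq) v S ∅).Nonempty → NormalCR (EE bl (y * sr q hq) v S ∅))
    (v : Equiv.Perm (Fin n)) (S : Finset (Fin n)) (hid : IsId bl v S)
    (hne : (EE bl y v S ∅).Nonempty) : NormalCR (EE bl y v S ∅) := by
  obtain ⟨c, hc⟩ := exists_gamX (n := n) q hq
  obtain ⟨c', hc'⟩ := exists_gamX' (n := n) q hq
  rcases asc_or_dsc v q hq with hv | hv
  · obtain ⟨w, rfl⟩ : ∃ w : Equiv.Perm (Fin n), v = w * sr q hq :=
      ⟨v * sr q hq, (mul_sr_sr v q hq).symm⟩
    have hw : dsc w q hq := (asc_mul_iff w q hq).1 hv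
    have hS := ind_hS hw hid
    have hidw := ind_isId_up hw hid
    have hN : w (q1 q hq) ∉ (∅ : Finset (Fin n)) := Finset.notMem_empty _
    have hab := abX_ne (bl := bl) (S := S) (N := ∅) y hw
    have hba : ∀ z ∈ TT bl y w q hq S ∅,
        ¬ (aeval z (bX y w q hq) = 0 ∧ aeval z (aX y w q hq) = 0) :=
      fun z hz h => hab z hz ⟨h.2, h.1⟩
    have e1 := normal_iff_coord c (EE bl y (w * sr q hq) S ∅)
      (Seq (TT bl y w q hq S ∅) (aX y w q hq) (bX y w q hq))
      (by intro z; rw [hc]; exact (gamX_mem_eq y hw z).symm)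
    have e2 := normal_iff_coord c' (EE bl (y * sr q hq) w S ∅)
      (Sne (TT bl y w q hq S ∅) (bX y w q hq) (aX y w q hq))
      (by intro z; rw [hc']; exact (gamX'_mem_ne hbl y hw hS hN z).symm)
    have e3 := normal_iff_coord c' (EE bl (y * sr q hq) (w * sr q hq) S ∅)
      (Seq (TT bl y w q hq S ∅) (bX y w q hq) (aX y w q hq))
      (by intro z; rw [hc']; exact (gamX'_mem_eq y hw z).symm)
    have hne1 : (Seq (TT bl y w q hq S ∅) (aX y w q hq) (bX y w q hq)).Nonempty := by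
      obtain ⟨z, hz⟩ := hne
      obtain ⟨z, rfl⟩ := c.g_surj z
      rw [hc] at hz
      exact ⟨z, (gamX_mem_eq y hw z).1 hz⟩
    have hT : (TT bl y w q hq S ∅).Nonempty := by
      obtain ⟨z, hz⟩ := hne1
      exact ⟨_, hz.1⟩
    have hE : (EE bl (y * sr q hq) w S ∅).Nonempty := by
      obtain ⟨z, hz⟩ := (Sne_nonempty_iff _ _ _ hba).2 hT
      exact ⟨gamX' z, (gamX'_mem_ne hbl y hw hS hN z).2 hz⟩
    rw [e1]
    refine normal_Seq _ _ _ hab (normal_of_Sne _ _ _ hba (e2.1 (ih _ _ hidw hE))) ?_ hne1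
    intro hne'
    rw [← e3]
    refine ih _ _ hid ?_
    obtain ⟨z, hz⟩ := hne'
    exact ⟨gamX' z, (gamX'_mem_eq y hw z).2 hz⟩
  · by_cases hS : bl (v (q1 q hq)) = bl (v (q0 q hq)) → v (q0 q hq) ∈ S → v (q1 q hq) ∈ S
    · have hN : v (q1 q hq) ∉ (∅ : Finset (Fin n)) := Finset.notMem_empty _
      have hab := abX_ne (bl := bl) (S := S) (N := ∅) y hv
      have hba : ∀ z ∈ TT bl y v q hq S ∅,
          ¬ (aeval z (bX y v q hq) = 0 ∧ aeval z (aX y v q hq) = 0) :=
        fun z hz h => hab z hz ⟨h.2, h.1⟩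
      have e1 := normal_iff_coord c (EE bl y v S ∅)
        (Sne (TT bl y v q hq S ∅) (aX y v q hq) (bX y v q hq))
        (by intro z; rw [hc]; exact (gamX_mem_ne hbl y hv hS hN z).symm)
      have e2 := normal_iff_coord c' (EE bl (y * sr q hq) v S ∅)
        (Sne (TT bl y v q hq S ∅) (bX y v q hq) (aX y v q hq))
        (by intro z; rw [hc']; exact (gamX'_mem_ne hbl y hv hS hN z).symm)
      have hT : (TT bl y v q hq S ∅).Nonempty := by
        obtain ⟨z, hz⟩ := hne
        obtain ⟨z, rfl⟩ := c.g_surj z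
        rw [hc] at hz
        exact ⟨_, ((gamX_mem_ne hbl y hv hS hN z).1 hz).1⟩
      have hE : (EE bl (y * sr q hq) v S ∅).Nonempty := by
        obtain ⟨z, hz⟩ := (Sne_nonempty_iff _ _ _ hba).2 hT
        exact ⟨gamX' z, (gamX'_mem_ne hbl y hv hS hN z).2 hz⟩
      rw [e1]
      exact normal_Sne_swap _ _ _ hab (e2.1 (ih _ _ hid hE))
    · rw [Classical.not_imp, Classical.not_imp] at hS
      obtain ⟨hbb, ha, hb⟩ := hS
      have hidt := ind_isId_insert hv hid ha hbb
      have hSt : bl (v (q1 q hq)) = bl (v (q0 q hq)) → v (q0 q hq) ∈ insert (v (q1 q hq)) S →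
          v (q1 q hq) ∈ insert (v (q1 q hq)) S := fun _ _ => Finset.mem_insert_self _ _
      have hat : v (q0 q hq) ∈ insert (v (q1 q hq)) S := Finset.mem_insert_of_mem ha
      have hN : v (q1 q hq) ∉ (∅ : Finset (Fin n)) := Finset.notMem_empty _
      have hAB := typeT_ne hbl y hv hid ha hb hbb
      have hba : ∀ z ∈ TT bl y v q hq (insert (v (q1 q hq)) S) ∅,
          ¬ (aeval z (bX y v q hq) = 0 ∧ aeval z (aX y v q hq) = 0) :=
        fun z hz h => abX_ne y hv z hz ⟨h.2, h.1⟩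
      have hVE := VI_EE_dens bl y v ha
      have hVE' := VI_EE_dens bl (y * sr q hq) v ha
      have hVT := VI_TT_dens bl y v q hq hat
      have e1 := normal_iff_coord c (EE bl y v S {v (q0 q hq)})
        (Seq (TT bl y v q hq (insert (v (q1 q hq)) S) {v (q0 q hq)})
          (AX bl y v q hq) (BX bl y v q hq))
        (by intro z; rw [hc]; exact (typeT_mem hbl y hv hid ha hb hbb z).symm)
      have e2 := normal_iff_coord c' (EE bl (y * sr q hq) v (insert (v (q1 q hq)) S) ∅)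
        (Sne (TT bl y v q hq (insert (v (q1 q hq)) S) ∅) (bX y v q hq) (aX y v q hq))
        (by intro z; rw [hc']; exact (gamX'_mem_ne hbl y hv hSt hN z).symm)
      have e3 := normal_iff_coord c' (EE bl (y * sr q hq) v S {v (q0 q hq)})
        (Seq (TT bl y v q hq (insert (v (q1 q hq)) S) {v (q0 q hq)})
          (BX bl y v q hq) (AX bl y v q hq))
        (by intro z; rw [hc']; exact (typeT_mem' hbl y hv hid ha hb hbb z).symm)
      have hne1 : (Seq (TT bl y v q hq (insert (v (q1 q hq)) S) {v (q0 q hq)})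
          (AX bl y v q hq) (BX bl y v q hq)).Nonempty := by
        obtain ⟨z, hz⟩ := ind_nonempty_congr hVE.symm hne
        obtain ⟨z, rfl⟩ := c.g_surj z
        rw [hc] at hz
        exact ⟨z, (typeT_mem hbl y hv hid ha hb hbb z).1 hz⟩
      have hT : (TT bl y v q hq (insert (v (q1 q hq)) S) ∅).Nonempty := by
        refine ind_nonempty_congr hVT ?_
        obtain ⟨z, hz⟩ := hne1
        exact ⟨_, hz.1⟩
      have hE : (EE bl (y * sr q hq) v (insert (v (q1 q hq)) S) ∅).Nonempty := by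
        obtain ⟨z, hz⟩ := (Sne_nonempty_iff _ _ _ hba).2 hT
        exact ⟨gamX' z, (gamX'_mem_ne hbl y hv hSt hN z).2 hz⟩
      have hnT : NormalCR (TT bl y v q hq (insert (v (q1 q hq)) S) {v (q0 q hq)}) :=
        NormalCR.congr hVT.symm (normal_of_Sne _ _ _ hba (e2.1 (ih _ _ hidt hE)))
      refine NormalCR.congr hVE (e1.2 ?_)
      refine normal_Seq _ _ _ hAB hnT ?_ hne1
      intro hne'
      rw [← e3]
      refine NormalCR.congr hVE'.symm (ih _ _ hid ?_)
      refine ind_nonempty_congr hVE' ?_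
      obtain ⟨z, hz⟩ := hne'
      exact ⟨gamX' z, (typeT_mem' hbl y hv hid ha hb hbb z).2 hz⟩

theorem normal_EE {bl : Fin n → ℕ} (hbl : Monotone bl) (y v : Equiv.Perm (Fin n))
    {S : Finset (Fin n)} (hid : IsId bl v S) (hne : (EE bl y v S ∅).Nonempty) :
    NormalCR (EE bl y v S ∅) := by
  have key : ∀ y : Equiv.Perm (Fin n), ∀ (v : Equiv.Perm (Fin n)) (S : Finset (Fin n)),
      IsId bl v S → (EE bl y v S ∅).Nonempty → NormalCR (EE bl y v S ∅) := by
    intro y
    refine down_induction (P := fun y : Equiv.Perm (Fin n) =>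
      ∀ (v : Equiv.Perm (Fin n)) (S : Finset (Fin n)),
      IsId bl v S → (EE bl y v S ∅).Nonempty → NormalCR (EE bl y v S ∅)) ?_ ?_ y
    · intro v S _ hne
      exact normal_base hbl hne
    · intro y q hq _ ih v S hid hne
      exact ind_step hbl y q hq ih v S hid hne
  exact key y v S hid hne

end CE
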