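import Pool.Agent.H43.CE.Defs

/-!
# CE, job N-Abs : normality along the `P^1`-step, abstract part

These are the parts without depth of the lemmas of D/Good1.lean and D/Good2.lean of project CM; `NormalCR S := IsDomain (CR S) ∧ IsIntegrallyClosed (CR S)`.
* `NormalCR.congr`: `VI S = VI S'` gives a ring isomorphism of the quotients (`Ideal.quotEquivOfEq`), as in `CMT.Good.congr`.
* `normal_iff_coord`: `CMT.CoordChange.crEquiv` and transport, as in `CMT.CoordChange.good_iff` (Ch/C4.lean).
* `normal_of_Sne`: `CMT.sneEquiv` : `CR (Sne T a b) ≃ (CR T)[X]`; `CR T` is a domain (subring of a domain), `CMT.normal_of_poly`.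
* `normal_Sne_swap`: both rings are isomorphic to `(CR T)[X]` (`CMT.sneEquiv` twice; `hab` is symmetric).
* `normal_Seq`: as in `CMT.good_Seq`: `(Seq T a b).Nonempty` gives `a ∉ VI T` (`Seq_nonempty_iff`). `CR (Seq T a b) ≃ adj (CR T) τ`, `τ = tau T a b` (`CMT.seqEquiv`).
  If `b ∈ VI T` then `τ = 0` and `adj (CR T) 0` is the image of `CR T`, normal.  If `b ∉ VI T` then `Seq T b a` is nonempty, `CR (Seq T b a) ≃ adj (CR T) τ⁻¹` is normal, and
  `CMT.normal_adj` applies.
-/

open MvPolynomial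

noncomputable section

namespace CE

open CMT

theorem Abs_equiv {R R' : Type} [CommRing R] [CommRing R'] (e : R ≃+* R')
    (h : IsDomain R ∧ IsIntegrallyClosed R) : IsDomain R' ∧ IsIntegrallyClosed R' := by
  obtain ⟨h1, h2⟩ := h
  exact ⟨e.symm.toMulEquiv.isDomain R, IsIntegrallyClosed.of_equiv e⟩

theorem NormalCR.congr {ι : Type} {S S' : Set (ι → ℂ)} (h : VI S = VI S') (hS : NormalCR S) :
    NormalCR S' :=
  Abs_equiv (Ideal.quotEquivOfEq h) hS

theorem normal_iff_coord {ι ι' : Type} (c : CoordChange ι ι') (S : Set (ι → ℂ))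
    (S' : Set (ι' → ℂ)) (h : ∀ y, y ∈ S' ↔ c.g y ∈ S) : NormalCR S ↔ NormalCR S' := by
  obtain ⟨e, -, -⟩ := c.crEquiv S S' h
  exact ⟨fun hS => Abs_equiv (e : CR S ≃+* CR S') hS,
    fun hS => Abs_equiv (e.symm : CR S' ≃+* CR S) hS⟩

theorem normal_of_Sne {κ : Type} [Finite κ] (T : Set (κ → ℂ)) (a b : MvPolynomial κ ℂ)
    (hab : ∀ y ∈ T, ¬ (aeval y a = 0 ∧ aeval y b = 0)) (h : NormalCR (Sne T a b)) :
    NormalCR T := by
  obtain ⟨e, -, -⟩ := sneEquiv T a b hab
  obtain ⟨h1, h2⟩ := h
  have hd : IsDomain (Polynomial (CR T)) := e.symm.toMulEquiv.isDomain _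
  have hi : IsIntegrallyClosed (Polynomial (CR T)) := IsIntegrallyClosed.of_equiv e
  have hd' : IsDomain (CR T) :=
    Function.Injective.isDomain (Polynomial.C : CR T →+* Polynomial (CR T)) Polynomial.C_injective
  exact ⟨hd', normal_of_poly hi⟩

theorem normal_Sne_swap {κ : Type} [Finite κ] (T : Set (κ → ℂ)) (a b : MvPolynomial κ ℂ)
    (hab : ∀ y ∈ T, ¬ (aeval y a = 0 ∧ aeval y b = 0)) (h : NormalCR (Sne T b a)) :
    NormalCR (Sne T a b) := by
  refine NormalCR.congr ?_ h
  rw [VI_Sne T a b hab, VI_Sne T b a fun y hy hh => hab y hy ⟨hh.2, hh.1⟩]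

theorem normal_Seq {κ : Type} [Finite κ] (T : Set (κ → ℂ)) (a b : MvPolynomial κ ℂ)
    (hab : ∀ y ∈ T, ¬ (aeval y a = 0 ∧ aeval y b = 0)) (h1 : NormalCR T)
    (h2 : (Seq T b a).Nonempty → NormalCR (Seq T b a)) (hne : (Seq T a b).Nonempty) :
    NormalCR (Seq T a b) := by
  obtain ⟨i1, i2⟩ := h1
  have ha : a ∉ VI T := (Seq_nonempty_iff T a b hab).1 hne
  have hab' : ∀ y ∈ T, ¬ (aeval y b = 0 ∧ aeval y a = 0) := fun y hy h => hab y hy ⟨h.2, h.1⟩
  have hinj : Function.Injective (algebraMap (CR T) (FractionRing (CR T))) :=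
    IsFractionRing.injective _ _
  obtain ⟨e, -, -⟩ := seqEquiv T a b hab ha
  have key : IsIntegrallyClosed (adj (CR T) (tau T a b)) := by
    by_cases hb : b ∈ VI T
    · have ht : tau T a b = 0 := by
        unfold tau
        rw [Ideal.Quotient.eq_zero_iff_mem.2 hb, map_zero, zero_div]
      have hbij : Function.Bijective (algebraMap (CR T) (adj (CR T) (tau T a b))) := by
        constructor
        · intro x y hxy
          exact hinj (congrArg Subtype.val hxy)
        · intro y
          obtain ⟨p, hp⟩ := (mem_adj_iff (tau T a b) (y : FractionRing (CR T))).1 y.2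
          refine ⟨p.coeff 0, Subtype.ext ?_⟩
          rw [← hp, ht]
          show algebraMap (CR T) (FractionRing (CR T)) (p.coeff 0) = _
          rw [Polynomial.coeff_zero_eq_aeval_zero']
      let e0 : CR T ≃+* adj (CR T) (tau T a b) := RingEquiv.ofBijective _ hbij
      exact IsIntegrallyClosed.of_equiv e0
    · have ht : tau T a b ≠ 0 := by
        unfold tau
        refine div_ne_zero ?_ ?_
        · rw [Ne, map_eq_zero_iff _ hinj, Ideal.Quotient.eq_zero_iff_mem]
          exact hb
        · rw [Ne, map_eq_zero_iff _ hinj, Ideal.Quotient.eq_zero_iff_mem]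
          exact ha
      have htau : tau T b a = (tau T a b)⁻¹ := by
        unfold tau
        rw [inv_div]
      have h3 := h2 ((Seq_nonempty_iff T b a hab').2 hb)
      obtain ⟨e', -, -⟩ := seqEquiv T b a hab' hb
      have k1 : IsIntegrallyClosed (adj (CR T) (tau T b a)) := by
        have := h3.2
        exact IsIntegrallyClosed.of_equiv e'
      rw [htau] at k1
      exact normal_adj _ ht k1
  exact ⟨MulEquiv.isDomain _ e.toMulEquiv, IsIntegrallyClosed.of_equiv e.symm⟩

end CE
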