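import Pool.Agent.H43.CE.N.Bdg
import Pool.Agent.H43.CE.N.Abs

/-!
# CE, job N-Base : the chart at `w0` (base of the induction)

Let `r = Fin.revPerm`, `z` a point of `EE bl r v S ∅`.  Then `z ∘ inl ∈ SS r v`, so `v = r` (`CMT.SS_rev_empty`).
Put `β(z) = permMat r * lowMat z * permMat r` (any commutative ring): upper unitriangular (`β i j = lowMat z (r i) (r j)`), `permMat r * lowMat z = β * permMat r`.
(1) for `z : Low n → ℂ`, `x`: `(permMat r * lowMat z, x) ∈ PP bl r S ∅ ↔ ∃ x', supported in S, x = (bdg bl β).mulVec x'`.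
   `←` clear (`b = β`, `b' = 1`).  `→`: `β * permMat r = b * permMat r * b'`, so `b⁻¹ * β = permMat r * b' * permMat r` (`r * r = 1`) is upper (left side) and lower (right side)
   triangular, so diagonal, `= D`: `β = b * D`, `b = β * D⁻¹`, `bdg b = bdg β * D⁻¹` and `D⁻¹.mulVec x'` is supported in `S`.
(2) coordinate change `CoordChange (Low n ⊕ Fin n) (Low n ⊕ Fin n)` by `CMT.exists_coordChange` with
   `G R p = Sum.elim (p ∘ inl) ((bdg bl (β (p ∘ inl))).mulVec (p ∘ inr))`, `H R p = Sum.elim (p ∘ inl) ((bdg bl (β (p ∘ inl))).adjugate.mulVec (p ∘ inr))`;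
   `det (bdg bl β) = 1` (unitriangular), `A * adjugate A = det A • 1`; compatibility with ring homomorphisms: `bdg_map`, `Matrix.map_mul`, `permMat_map`, `lowMat_map`,
   `RingHom.map_adjugate`, `RingHom.map_mulVec`.
   Under it `EE bl r r S ∅` corresponds to `E' = {p | ∀ j, j ∉ S → p (inr j) = 0}`.  So by `normal_iff_coord` it suffices that `E'` is normal.
(3) `VI E'` is the kernel of the surjective algebra homomorphism `MvPolynomial (Low n ⊕ Fin n) ℂ → MvPolynomial (Low n ⊕ {j // j ∈ S}) ℂ` which sends `X (inl e)` to `X (inl e)`,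
   `X (inr j)` to `X (inr j)` for `j ∈ S` and to `0` for `j ∉ S` (`MvPolynomial.funext` over the infinite field `ℂ`).  So `CR E'` is isomorphic to a polynomial ring over `ℂ`:
   a domain and integrally closed (UniqueFactorizationMonoid).
-/

open MvPolynomial

noncomputable section

namespace CE

open CMT

variable {n : ℕ}

theorem Base_lin {ι : Type} (A : Set ι) : NormalCR {p : ι → ℂ | ∀ i, i ∉ A → p i = 0} := by
  classical
  set E' : Set (ι → ℂ) := {p | ∀ i, i ∉ A → p i = 0} with hE
  obtain ⟨φ, hφ⟩ : ∃ φ : MvPolynomial ι ℂ →ₐ[ℂ] MvPolynomial A ℂ,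
      ∀ i, φ (X i) = if h : i ∈ A then X ⟨i, h⟩ else 0 := ⟨aeval _, fun i => aeval_X _ _⟩
  have hsec : ∀ g : MvPolynomial A ℂ, φ (rename Subtype.val g) = g := by
    intro g
    have h : φ.comp (rename Subtype.val) = AlgHom.id ℂ (MvPolynomial A ℂ) := by
      apply MvPolynomial.algHom_ext
      intro i
      rw [AlgHom.comp_apply, rename_X, hφ, dif_pos i.2]
      rfl
    exact DFunLike.congr_fun h g
  have hsurj : Function.Surjective (φ : MvPolynomial ι ℂ →+* MvPolynomial A ℂ) :=
    fun g => ⟨rename Subtype.val g, hsec g⟩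
  have hker : RingHom.ker (φ : MvPolynomial ι ℂ →+* MvPolynomial A ℂ) = VI E' := by
    ext f
    rw [RingHom.mem_ker, mem_vanishingIdeal_iff]
    have key : ∀ y : A → ℂ,
        aeval (fun i => if h : i ∈ A then y ⟨i, h⟩ else 0) f = aeval y (φ f) := by
      intro y
      have h : (aeval y : MvPolynomial A ℂ →ₐ[ℂ] ℂ).comp φ =
          aeval (fun i => if h : i ∈ A then y ⟨i, h⟩ else 0) := by
        apply MvPolynomial.algHom_ext
        intro i
        rw [AlgHom.comp_apply, hφ, aeval_X]
        split_ifs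
        · rw [aeval_X]
        · rw [map_zero]
      exact (DFunLike.congr_fun h f).symm
    constructor
    · intro h y hy
      have h2 : y = fun i => if h : i ∈ A then (fun a : A => y a.1) ⟨i, h⟩ else 0 := by
        funext i
        by_cases hi : i ∈ A
        · rw [dif_pos hi]
        · rw [dif_neg hi]
          exact hy i hi
      have h3 : φ f = 0 := h
      rw [h2]
      exact (key (fun a => y a.1)).trans (by rw [h3, map_zero])
    · intro h
      refine MvPolynomial.funext fun y => ?_
      rw [map_zero, ← MvPolynomial.aeval_eq_eval]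
      exact (key y).symm.trans (h _ (fun i hi => dif_neg hi))
  have key' : ∀ J : Ideal (MvPolynomial ι ℂ),
      RingHom.ker (φ : MvPolynomial ι ℂ →+* MvPolynomial A ℂ) = J →
      IsDomain (MvPolynomial ι ℂ ⧸ J) ∧ IsIntegrallyClosed (MvPolynomial ι ℂ ⧸ J) := by
    rintro J rfl
    have e := RingHom.quotientKerEquivOfSurjective hsurj
    exact ⟨e.toMulEquiv.isDomain _, IsIntegrallyClosed.of_equiv e.symm⟩
  exact key' _ hker

section ring
variable {R : Type*} [CommRing R]

/-- the upper unitriangular matrix `r * lowMat z * r` -/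
def Base_be (z : Low n → R) : Matrix (Fin n) (Fin n) R :=
  fun i j => lowMat z (Fin.rev i) (Fin.rev j)

theorem Base_be_zero (z : Low n → R) (i j : Fin n) (h : j < i) : Base_be z i j = 0 :=
  lowMat_gt z (Fin.rev_lt_rev.2 h)

theorem Base_be_diag (z : Low n → R) (i : Fin n) : Base_be z i i = 1 := lowMat_diag z _

theorem Base_be_map {S : Type*} [CommRing S] (f : R →+* S) (z : Low n → R) :
    (Base_be z).map f = Base_be (fun e => f (z e)) := by
  ext i j
  have h := congrFun (congrFun (lowMat_map f z) (Fin.rev i)) (Fin.rev j)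
  exact h

theorem Base_det (bl : Fin n → ℕ) (z : Low n → R) : (bdg bl (Base_be z)).det = 1 := by
  rw [Matrix.det_of_isUpperTriangular]
  · refine Finset.prod_eq_one fun i _ => ?_
    rw [bdg_apply, if_pos rfl, Base_be_diag]
  · intro i j h
    rw [bdg_apply, Base_be_zero z i j h, ite_self]

theorem Base_perm (z : Low n → R) :
    permMat R Fin.revPerm * lowMat z = Base_be z * permMat R Fin.revPerm := by
  ext i j
  rw [permMat_mul_apply, mul_permMat_apply]
  have h1 : (Fin.revPerm : Equiv.Perm (Fin n))⁻¹ i = Fin.rev i := by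
    rw [Equiv.Perm.inv_eq_iff_eq]
    exact (Fin.rev_rev i).symm
  rw [h1]
  show lowMat z (Fin.rev i) j = lowMat z (Fin.rev i) (Fin.rev (Fin.rev j))
  rw [Fin.rev_rev]

/-- the coordinate change -/
def Base_G (bl : Fin n → ℕ) (p : (Low n ⊕ Fin n) → R) : (Low n ⊕ Fin n) → R :=
  Sum.elim (fun e => p (Sum.inl e))
    ((bdg bl (Base_be fun e => p (Sum.inl e))).mulVec (fun j => p (Sum.inr j)))

/-- its inverse -/
def Base_H (bl : Fin n → ℕ) (p : (Low n ⊕ Fin n) → R) : (Low n ⊕ Fin n) → R :=
  Sum.elim (fun e => p (Sum.inl e))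
    ((bdg bl (Base_be fun e => p (Sum.inl e))).adjugate.mulVec (fun j => p (Sum.inr j)))

theorem Base_GH (bl : Fin n → ℕ) (p : (Low n ⊕ Fin n) → R) : Base_G bl (Base_H bl p) = p := by
  funext i
  cases i with
  | inl e => rfl
  | inr j =>
    have h : (bdg bl (Base_be fun e => p (Sum.inl e))).mulVec
        ((bdg bl (Base_be fun e => p (Sum.inl e))).adjugate.mulVec (fun j => p (Sum.inr j))) =
        fun j => p (Sum.inr j) := by
      rw [Matrix.mulVec_mulVec, Matrix.mul_adjugate, Base_det, one_smul, Matrix.one_mulVec]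
    exact congrFun h j

theorem Base_HG (bl : Fin n → ℕ) (p : (Low n ⊕ Fin n) → R) : Base_H bl (Base_G bl p) = p := by
  funext i
  cases i with
  | inl e => rfl
  | inr j =>
    have h : (bdg bl (Base_be fun e => p (Sum.inl e))).adjugate.mulVec
        ((bdg bl (Base_be fun e => p (Sum.inl e))).mulVec (fun j => p (Sum.inr j))) =
        fun j => p (Sum.inr j) := by
      rw [Matrix.mulVec_mulVec, Matrix.adjugate_mul, Base_det, one_smul, Matrix.one_mulVec]
    exact congrFun h j

theorem Base_G_map {S : Type*} [CommRing S] (bl : Fin n → ℕ) (f : R →+* S)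
    (p : (Low n ⊕ Fin n) → R) (i : Low n ⊕ Fin n) :
    f (Base_G bl p i) = Base_G bl (fun i => f (p i)) i := by
  cases i with
  | inl e => rfl
  | inr j =>
    show f ((bdg bl (Base_be fun e => p (Sum.inl e))).mulVec (fun j => p (Sum.inr j)) j) =
      (bdg bl (Base_be fun e => f (p (Sum.inl e)))).mulVec (fun j => f (p (Sum.inr j))) j
    rw [RingHom.map_mulVec, bdg_map, Base_be_map]
    rfl

theorem Base_H_map {S : Type*} [CommRing S] (bl : Fin n → ℕ) (f : R →+* S)
    (p : (Low n ⊕ Fin n) → R) (i : Low n ⊕ Fin n) :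
    f (Base_H bl p i) = Base_H bl (fun i => f (p i)) i := by
  cases i with
  | inl e => rfl
  | inr j =>
    show f ((bdg bl (Base_be fun e => p (Sum.inl e))).adjugate.mulVec
        (fun j => p (Sum.inr j)) j) =
      (bdg bl (Base_be fun e => f (p (Sum.inl e)))).adjugate.mulVec (fun j => f (p (Sum.inr j))) j
    have h := RingHom.map_adjugate f (bdg bl (Base_be fun e => p (Sum.inl e)))
    rw [RingHom.mapMatrix_apply, RingHom.mapMatrix_apply, bdg_map, Base_be_map] at h
    rw [RingHom.map_mulVec, h]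
    rfl

theorem Base_G_zero (bl : Fin n → ℕ) (i : Low n ⊕ Fin n) :
    Base_G bl (fun _ : Low n ⊕ Fin n => (0 : R)) i = 0 := by
  cases i with
  | inl e => rfl
  | inr j =>
    show (bdg bl (Base_be fun _ : Low n => (0 : R))).mulVec (fun _ => (0 : R)) j = 0
    exact congrFun (Matrix.mulVec_zero _) j

end ring

theorem Base_change (bl : Fin n → ℕ) :
    ∃ c : CoordChange (Low n ⊕ Fin n) (Low n ⊕ Fin n), ∀ y, c.g y = Base_G bl y := by
  obtain ⟨c, hc, -⟩ := exists_coordChange (fun _ _ => Base_G bl) (fun _ _ => Base_H bl)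
    (fun _ _ _ _ f y e => Base_G_map bl f y e) (fun _ _ _ _ f z e => Base_H_map bl f z e)
    (fun _ _ z => Base_GH bl z) (fun _ _ y => Base_HG bl y) (fun _ _ e => Base_G_zero bl e)
  exact ⟨c, hc⟩

theorem Base_iff (bl : Fin n → ℕ) (S : Finset (Fin n)) (y : (Low n ⊕ Fin n) → ℂ) :
    (∀ j, j ∉ S → y (Sum.inr j) = 0) ↔ Base_G bl y ∈ EE bl Fin.revPerm Fin.revPerm S ∅ := by
  set z : Low n → ℂ := fun e => y (Sum.inl e) with hz
  constructor
  · intro h
    refine ⟨Base_be z, 1, fun j => y (Sum.inr j), ⟨Base_be_zero z, fun i => ?_⟩, isUpper_one, h,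
      fun j hj => absurd hj (Finset.notMem_empty j), ?_, rfl⟩
    · rw [Base_be_diag]
      exact one_ne_zero
    · rw [mul_one]
      exact Base_perm z
  · rintro ⟨b, b', x', hb, hb', hx, -, h1, h2⟩
    have h3 : Base_be z * permMat ℂ Fin.revPerm = b * permMat ℂ Fin.revPerm * b' :=
      (Base_perm z).symm.trans h1
    have hrr : permMat ℂ (Fin.revPerm : Equiv.Perm (Fin n)) * permMat ℂ Fin.revPerm = 1 := by
      rw [← permMat_mul]
      have : (Fin.revPerm : Equiv.Perm (Fin n)) * Fin.revPerm = 1 := by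
        ext i
        show ((Fin.rev (Fin.rev i) : Fin n) : ℕ) = i
        rw [Fin.rev_rev]
      rw [this, permMat_one]
    set D : Matrix (Fin n) (Fin n) ℂ := permMat ℂ Fin.revPerm * b' * permMat ℂ Fin.revPerm with hD
    have h4 : Base_be z = b * D := by
      calc Base_be z = Base_be z * (permMat ℂ Fin.revPerm * permMat ℂ Fin.revPerm) := by
            rw [hrr, mul_one]
        _ = Base_be z * permMat ℂ Fin.revPerm * permMat ℂ Fin.revPerm := by rw [mul_assoc]
        _ = b * D := by
            rw [h3, hD]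
            simp only [mul_assoc]
    have hinv : ∀ i : Fin n, (Fin.revPerm : Equiv.Perm (Fin n))⁻¹ i = Fin.rev i := by
      intro i
      rw [Equiv.Perm.inv_eq_iff_eq]
      exact (Fin.rev_rev i).symm
    have hDap : ∀ i j, D i j = b' (Fin.rev i) (Fin.rev j) := by
      intro i j
      rw [hD, mul_permMat_apply, permMat_mul_apply, hinv]
      rfl
    have hdet : IsUnit b.det := isUnit_iff_ne_zero.2 hb.det_ne
    have h5 : D = b⁻¹ * Base_be z := by
      rw [h4, ← mul_assoc, Matrix.nonsing_inv_mul _ hdet, one_mul]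
    have hDlow : ∀ i j, i < j → D i j = 0 := by
      intro i j hij
      rw [hDap]
      exact hb'.1 _ _ (Fin.rev_lt_rev.2 hij)
    have hDup : ∀ i j, j < i → D i j = 0 := by
      intro i j hij
      rw [h5]
      exact (hb.inv.mul ⟨Base_be_zero z, fun i => by rw [Base_be_diag]; exact one_ne_zero⟩).1 i j hij
    have hdn : ∀ i, D i i ≠ 0 := by
      intro i
      rw [hDap]
      exact hb'.2 _
    have hDd : D = Matrix.diagonal (fun i => D i i) := by
      ext i j
      rcases lt_trichotomy i j with h | rfl | h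
      · rw [hDlow i j h, Matrix.diagonal_apply_ne _ h.ne]
      · rw [Matrix.diagonal_apply_eq]
      · rw [hDup i j h, Matrix.diagonal_apply_ne _ h.ne']
    have h6 : bdg bl (Base_be z) = bdg bl b * Matrix.diagonal (fun i => D i i) := by
      ext i j
      rw [Matrix.mul_diagonal, bdg_apply, bdg_apply, h4]
      have h7 : (b * D) i j = b i j * D j j := by
        rw [hDd, Matrix.mul_diagonal, Matrix.diagonal_apply_eq]
      rw [h7]
      split_ifs
      · rfl
      · rw [zero_mul]
    have h7 : (bdg bl (Base_be z)).mulVec (fun j => (D j j)⁻¹ * x' j) =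
        (bdg bl (Base_be z)).mulVec (fun j => y (Sum.inr j)) := by
      have h8 : (bdg bl (Base_be z)).mulVec (fun j => y (Sum.inr j)) = (bdg bl b).mulVec x' := h2
      rw [h8, h6, ← Matrix.mulVec_mulVec]
      refine congrArg _ ?_
      funext j
      rw [Matrix.mulVec_diagonal, mul_inv_cancel_left₀ (hdn j)]
    have h9 : (fun j => (D j j)⁻¹ * x' j) = fun j => y (Sum.inr j) := by
      have h10 := congrArg (bdg bl (Base_be z)).adjugate.mulVec h7
      rw [Matrix.mulVec_mulVec, Matrix.mulVec_mulVec, Matrix.adjugate_mul, Base_det, one_smul,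
        Matrix.one_mulVec, Matrix.one_mulVec] at h10
      exact h10
    intro j hj
    have h11 := congrFun h9 j
    rw [← h11, hx j hj, mul_zero]

theorem normal_base {bl : Fin n → ℕ} (hbl : Monotone bl) {v : Equiv.Perm (Fin n)}
    {S : Finset (Fin n)} (hne : (EE bl Fin.revPerm v S ∅).Nonempty) :
    NormalCR (EE bl Fin.revPerm v S ∅) := by
  obtain ⟨z, hz⟩ := hne
  have hv : v = Fin.revPerm := by
    refine SS_rev_empty ⟨fun e => z (Sum.inl e), ?_⟩
    obtain ⟨b, b', x', hb, hb', -, -, h, -⟩ := hz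
    exact ⟨b, b', hb, hb', h⟩
  subst hv
  obtain ⟨c, hc⟩ := Base_change bl
  have h1 : NormalCR {p : (Low n ⊕ Fin n) → ℂ | ∀ j, j ∉ S → p (Sum.inr j) = 0} := by
    have h2 := Base_lin {i : Low n ⊕ Fin n | ∀ j, i = Sum.inr j → j ∈ S}
    have h3 : {p : (Low n ⊕ Fin n) → ℂ |
        ∀ i, i ∉ {i : Low n ⊕ Fin n | ∀ j, i = Sum.inr j → j ∈ S} → p i = 0} =
        {p : (Low n ⊕ Fin n) → ℂ | ∀ j, j ∉ S → p (Sum.inr j) = 0} := by
      ext p
      constructor
      · intro h j hj
        exact h _ (fun hc => hj (hc j rfl))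
      · intro h i hi
        cases i with
        | inl e => exact absurd (fun j hj => by cases hj) hi
        | inr j =>
          refine h j fun hj => hi fun j' hj' => ?_
          cases hj'
          exact hj
    rw [h3] at h2
    exact h2
  refine (normal_iff_coord c _ _ fun y => ?_).2 h1
  rw [hc]
  exact Base_iff bl S y

end CE
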