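import Pool.Agent.H43.CE.N.PP2

/-!
# CE, job N-Chart : the coordinate changes `gamX`, `gamX'`

Apply `CMT.exists_coordChange` (Ch/C3.lean) with `G R = gamX`, and
`H R z = fun o => match o with | none => gamI q hq (fun e => z (Sum.inl e)) none
                              | some (Sum.inl k) => gamI q hq (fun e => z (Sum.inl e)) (some k)
                              | some (Sum.inr j) => z (Sum.inr j)`
for `gamX`; for `gamX'` use `c3bY q hq` (Ch/C3b.lean) instead of `gamI q hq`.
The hypotheses follow from `map_gam`, `map_gamI`, `gam_gamI`, `gamI_gam`, `gam_zero` (resp. `map_gam'`, `c3b_Y_map`, `c3b_gam_Y`, `c3b_Y_gam`,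
`c3b_gam_zero`); note that `fun o => (H R z) (o.map Sum.inl) = gamI q hq (fun e => z (Sum.inl e))` by cases on `o`.
-/

open MvPolynomial

noncomputable section

namespace CE

open CMT

variable {n : ℕ}

/-- the inverse coordinate change with extra variables -/
def chartH {R ι κ : Type} {m : ℕ} (h : (ι → R) → (Option κ → R)) (z : (ι ⊕ Fin m) → R) :
    Option (κ ⊕ Fin m) → R
  | none => h (fun e => z (Sum.inl e)) none
  | some (Sum.inl k) => h (fun e => z (Sum.inl e)) (some k)
  | some (Sum.inr j) => z (Sum.inr j)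

theorem chartH_map {R ι κ : Type} {m : ℕ} (h : (ι → R) → (Option κ → R))
    (z : (ι ⊕ Fin m) → R) :
    (fun o : Option κ => chartH h z (o.map Sum.inl)) = h (fun e => z (Sum.inl e)) := by
  funext o
  cases o with
  | none => rfl
  | some k => rfl

/-- adding extra variables to a natural family of mutually inverse maps -/
theorem chart_exists {ι κ : Type} {m : ℕ}
    (G : ∀ (R : Type) [CommRing R], (Option κ → R) → (ι → R))
    (H : ∀ (R : Type) [CommRing R], (ι → R) → (Option κ → R))
    (hG : ∀ (R S : Type) [CommRing R] [CommRing S] (f : R →+* S) (y : Option κ → R) (e : ι),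
      f (G R y e) = G S (fun i => f (y i)) e)
    (hH : ∀ (R S : Type) [CommRing R] [CommRing S] (f : R →+* S) (z : ι → R) (e : Option κ),
      f (H R z e) = H S (fun i => f (z i)) e)
    (hGH : ∀ (R : Type) [CommRing R] (z : ι → R), G R (H R z) = z)
    (hHG : ∀ (R : Type) [CommRing R] (y : Option κ → R), H R (G R y) = y)
    (hG0 : ∀ (R : Type) [CommRing R] (e : ι), G R (fun _ => 0) e = 0) :
    ∃ c : CoordChange (ι ⊕ Fin m) (Option (κ ⊕ Fin m)), ∀ y,
      c.g y = Sum.elim (G ℂ fun o => y (o.map Sum.inl)) (fun j => y (some (Sum.inr j))) := by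
  refine Exists.imp (fun c hc => hc.1) (exists_coordChange (ι := ι ⊕ Fin m)
    (ι' := Option (κ ⊕ Fin m))
    (fun R _ y => Sum.elim (G R fun o => y (o.map Sum.inl)) (fun j => y (some (Sum.inr j))))
    (fun R _ z => chartH (H R) z) ?_ ?_ ?_ ?_ ?_)
  · intro R S _ _ f y e
    cases e with
    | inl e => exact hG R S f (fun o => y (o.map Sum.inl)) e
    | inr j => rfl
  · intro R S _ _ f z e
    match e with
    | none => exact hH R S f (fun e => z (Sum.inl e)) none
    | some (Sum.inl k) => exact hH R S f (fun e => z (Sum.inl e)) (some k)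
    | some (Sum.inr j) => rfl
  · intro R _ z
    funext e
    cases e with
    | inl e =>
      show G R (fun o => chartH (H R) z (o.map Sum.inl)) e = z (Sum.inl e)
      rw [chartH_map, hGH]
    | inr j => rfl
  · intro R _ y
    have h1 := hHG R (fun o => y (o.map Sum.inl))
    funext e
    match e with
    | none => exact congrFun h1 none
    | some (Sum.inl k) => exact congrFun h1 (some k)
    | some (Sum.inr j) => rfl
  · intro R _ e
    cases e with
    | inl e => exact hG0 R e
    | inr j => rfl

theorem exists_gamX (q : ℕ) (hq : q + 1 < n) :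
    ∃ c : CoordChange (Low n ⊕ Fin n) (Option (Kap n q hq ⊕ Fin n)), ∀ y, c.g y = gamX y :=
  chart_exists (fun _ _ => gam) (fun _ _ => gamI q hq)
    (fun _ _ _ _ f y e => map_gam f y e) (fun _ _ _ _ f z e => map_gamI f q hq z e)
    (fun _ _ z => gam_gamI q hq z) (fun _ _ y => gamI_gam y) (fun _ _ e => gam_zero e)

theorem exists_gamX' (q : ℕ) (hq : q + 1 < n) :
    ∃ c : CoordChange (Low n ⊕ Fin n) (Option (Kap n q hq ⊕ Fin n)), ∀ y, c.g y = gamX' y :=
  chart_exists (fun _ _ => gam') (fun _ _ => c3bY q hq)
    (fun _ _ _ _ f y e => map_gam' f y e) (fun _ _ _ _ f z e => c3b_Y_map f q hq z e)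
    (fun _ _ z => c3b_gam_Y q hq z) (fun _ _ y => c3b_Y_gam q hq y)
    (fun _ _ e => congrFun (c3b_gam_zero q hq) e)

end CE
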