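import Pool.Agent.H43.CE.N.Chart

/-!
# CE, job N-ChartMem : the strata in the charts

Let `y : Option (Kap ⊕ Fin n) → ℂ`, `t = y none`, `g = permMat y0 * lowMat (ext0 fun e => y (some (Sum.inl e)))`, `x j = y (some (Sum.inr j))`.
* `permMat y0 * lowMat (gam ..) = g * xq t` (`CMT.lowMat_gam`), `permMat (y0 * sr) * lowMat (gam' ..) = g * S * xq t` (`CMT.chart_s`).
* `aeval (fun i => y (some i)) aX = aa q hq w g`, `bX` similarly (`aeval_rename`, `CMT.aeval_aP`, `CMT.aeval_bP`).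
* `(fun i => y (some i)) ∈ TT bl y0 w q hq S N ↔ (g, x) ∈ PP2 bl q hq w S N` (by definition).
* `gamX_mem_ne`: `gamX y ∈ EE bl y0 w S N ↔ (g * xq t, x) ∈ PP bl w S N`.  `→`: `pp2_of_pp_w`, `pp2_mul_xq_iff`, `pp_cell` and `CMT.fibre1`
  (`g ∈ Cell2` by `pp2_cell2`). `←`: `pp2_mul_xq`, `fibre1`, `pp2_w`.
* `gamX_mem_eq`: the same with `pp2_of_pp_v`, `fibre2`, `pp2_v` (no hypothesis on `S, N`).
* `gamX'_mem_ne`, `gamX'_mem_eq`: `pp2_mul_sr_iff`, `fibre3`, `fibre4`.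
* `abX_ne`: `CMT.ab_ne`.
-/

open MvPolynomial

noncomputable section

namespace CE

open CMT

variable {n : ℕ} {q : ℕ} {hq : q + 1 < n} {bl : Fin n → ℕ} {w : Equiv.Perm (Fin n)}
  {S N : Finset (Fin n)}

theorem ChartMem_aX (y0 w : Equiv.Perm (Fin n)) (z : Kap n q hq ⊕ Fin n → ℂ) :
    aeval z (aX y0 w q hq) = aa q hq w (permMat ℂ y0 * lowMat (ext0 fun e => z (Sum.inl e))) := by
  unfold aX
  rw [aeval_rename, aeval_aP]
  rfl

theorem ChartMem_bX (y0 w : Equiv.Perm (Fin n)) (z : Kap n q hq ⊕ Fin n → ℂ) :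
    aeval z (bX y0 w q hq) = bb q hq w (permMat ℂ y0 * lowMat (ext0 fun e => z (Sum.inl e))) := by
  unfold bX
  rw [aeval_rename, aeval_bP]
  rfl

theorem ChartMem_EE (y0 v : Equiv.Perm (Fin n)) (y : Option (Kap n q hq ⊕ Fin n) → ℂ) :
    gamX y ∈ EE bl y0 v S N ↔
      (permMat ℂ y0 * lowMat (ext0 fun e : Kap n q hq => y (some (Sum.inl e))) * xq q hq (y none),
        fun j => y (some (Sum.inr j))) ∈ PP bl v S N := by
  have h := lowMat_gam (hq := hq) (fun o => y (o.map Sum.inl))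
  show (permMat ℂ y0 * lowMat (gam fun o => y (o.map Sum.inl)), fun j => y (some (Sum.inr j))) ∈
    PP bl v S N ↔ _
  rw [h, ← Matrix.mul_assoc]
  exact Iff.rfl

theorem ChartMem_EE' (y0 v : Equiv.Perm (Fin n)) (y : Option (Kap n q hq ⊕ Fin n) → ℂ) :
    gamX' y ∈ EE bl (y0 * sr q hq) v S N ↔
      (permMat ℂ y0 * lowMat (ext0 fun e : Kap n q hq => y (some (Sum.inl e))) *
        permMat ℂ (sr q hq) * xq q hq (y none),
        fun j => y (some (Sum.inr j))) ∈ PP bl v S N := by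
  have h := chart_s y0 q hq (fun o => y (o.map Sum.inl))
  show (permMat ℂ (y0 * sr q hq) * lowMat (gam' fun o => y (o.map Sum.inl)),
    fun j => y (some (Sum.inr j))) ∈ PP bl v S N ↔ _
  rw [h]
  exact Iff.rfl

theorem gamX_mem_ne (hbl : Monotone bl) (y0 : Equiv.Perm (Fin n)) (hw : dsc w q hq)
    (hS : bl (w (q1 q hq)) = bl (w (q0 q hq)) → w (q0 q hq) ∈ S → w (q1 q hq) ∈ S)
    (hN : w (q1 q hq) ∉ N) (y : Option (Kap n q hq ⊕ Fin n) → ℂ) :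
    gamX y ∈ EE bl y0 w S N ↔
      y ∈ Sne (TT bl y0 w q hq S N) (aX y0 w q hq) (bX y0 w q hq) := by
  rw [ChartMem_EE]
  show _ ↔ (_ ∧ _)
  rw [ChartMem_aX, ChartMem_bX]
  constructor
  · intro h
    have h1 := (pp2_mul_xq_iff (q := q) (hq := hq) (w := w) (y none)).1 (pp2_of_pp_w h)
    exact ⟨h1, (fibre1 hw (pp2_cell2 hw h1) _).1 (pp_cell h)⟩
  · rintro ⟨h1, h2⟩
    exact pp2_w hbl hw hS hN (pp2_mul_xq h1 _) ((fibre1 hw (pp2_cell2 hw h1) _).2 h2)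

theorem gamX_mem_eq (y0 : Equiv.Perm (Fin n)) (hw : dsc w q hq)
    (y : Option (Kap n q hq ⊕ Fin n) → ℂ) :
    gamX y ∈ EE bl y0 (w * sr q hq) S N ↔
      y ∈ Seq (TT bl y0 w q hq S N) (aX y0 w q hq) (bX y0 w q hq) := by
  rw [ChartMem_EE]
  show _ ↔ (_ ∧ _)
  rw [ChartMem_aX, ChartMem_bX]
  constructor
  · intro h
    have h1 := (pp2_mul_xq_iff (q := q) (hq := hq) (w := w) (y none)).1 (pp2_of_pp_v h)
    exact ⟨h1, (fibre2 hw (pp2_cell2 hw h1) _).1 (pp_cell h)⟩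
  · rintro ⟨h1, h2⟩
    exact pp2_v hw (pp2_mul_xq h1 _) ((fibre2 hw (pp2_cell2 hw h1) _).2 h2)

theorem gamX'_mem_ne (hbl : Monotone bl) (y0 : Equiv.Perm (Fin n)) (hw : dsc w q hq)
    (hS : bl (w (q1 q hq)) = bl (w (q0 q hq)) → w (q0 q hq) ∈ S → w (q1 q hq) ∈ S)
    (hN : w (q1 q hq) ∉ N) (y : Option (Kap n q hq ⊕ Fin n) → ℂ) :
    gamX' y ∈ EE bl (y0 * sr q hq) w S N ↔
      y ∈ Sne (TT bl y0 w q hq S N) (bX y0 w q hq) (aX y0 w q hq) := by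
  rw [ChartMem_EE']
  show _ ↔ (_ ∧ _)
  rw [ChartMem_aX, ChartMem_bX]
  constructor
  · intro h
    have h1 := pp2_mul_sr_iff.1
      ((pp2_mul_xq_iff (q := q) (hq := hq) (w := w) (y none)).1 (pp2_of_pp_w h))
    exact ⟨h1, (fibre3 hw (pp2_cell2 hw h1) _).1 (pp_cell h)⟩
  · rintro ⟨h1, h2⟩
    exact pp2_w hbl hw hS hN (pp2_mul_xq (pp2_mul_sr h1) _)
      ((fibre3 hw (pp2_cell2 hw h1) _).2 h2)

theorem gamX'_mem_eq (y0 : Equiv.Perm (Fin n)) (hw : dsc w q hq)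
    (y : Option (Kap n q hq ⊕ Fin n) → ℂ) :
    gamX' y ∈ EE bl (y0 * sr q hq) (w * sr q hq) S N ↔
      y ∈ Seq (TT bl y0 w q hq S N) (bX y0 w q hq) (aX y0 w q hq) := by
  rw [ChartMem_EE']
  show _ ↔ (_ ∧ _)
  rw [ChartMem_aX, ChartMem_bX]
  constructor
  · intro h
    have h1 := pp2_mul_sr_iff.1
      ((pp2_mul_xq_iff (q := q) (hq := hq) (w := w) (y none)).1 (pp2_of_pp_v h))
    exact ⟨h1, (fibre4 hw (pp2_cell2 hw h1) _).1 (pp_cell h)⟩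
  · rintro ⟨h1, h2⟩
    exact pp2_v hw (pp2_mul_xq (pp2_mul_sr h1) _) ((fibre4 hw (pp2_cell2 hw h1) _).2 h2)

theorem abX_ne (y0 : Equiv.Perm (Fin n)) (hw : dsc w q hq) :
    ∀ y ∈ TT bl y0 w q hq S N,
      ¬ (aeval y (aX y0 w q hq) = 0 ∧ aeval y (bX y0 w q hq) = 0) := by
  intro y hy
  rw [ChartMem_aX, ChartMem_bX]
  rintro ⟨h1, h2⟩
  rcases ab_ne hw (pp2_cell2 hw hy) with h | h
  · exact h h1
  · exact h h2

end CE
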