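import Pool.Agent.H43.CE.N.Bdg

/-!
# CE, job N-Fm1 : the semi-invariant minors with a vector

`Fm bl v k hk M x` is the determinant of `D i j = M (v i) j` (`j < k`), `D i k = x (v i)` if `bl (v i) = bl (v k)`, `0` otherwise (`i, j ≤ k`).

`Fm_semi`: `M = b * permMat v * b'`, `x = (bdg bl b).mulVec x'`, `x'` supported in `S`, and no `i ∈ S` satisfies `prc bl v (v k) i`
(`v k < i`, same block, `k < v⁻¹ i`).  Then `Fm = ∏_{p<k} b' p p * ∏_{p≤k} b (v p) (v p) * x' (v k)`.
Proof.  `M (v i) j = ∑_{p ≤ j} b (v i) (v p) * b' p j`.  Let `U` be the `(k+1) × (k+1)` upper triangular matrix with `U p j = b' p j` for `p, j < k`,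
`U k k = 1`, `U p k = 0` for `p < k`; and `D'` the matrix with `D' i j = b (v i) (v j)` (`j < k`), `D' i k = D i k`.  Then `D = D' * U`, `det U = ∏_{p<k} b' p p`.
Let `D''` be `D'` with the last column replaced by `D' i k - ∑_{p<k, v k < v p, bl (v p) = bl (v k)} x' (v p) * D' i p`; the determinant does not change
(`Matrix.det_updateCol_add_..` or: `D' = D'' * U2` with `U2` unitriangular).
Claim: `D'' i k = 0` if `v k < v i`, and `D'' k k = b (v k) (v k) * x' (v k)`.
  `x (v i) = ∑_{l} b (v i) l * x' l` over `l` with `bl l = bl (v i)` and `v i ≤ l` (`b` upper).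
  Let `v k ≤ v i`. If `bl (v i) = bl (v k)`: a term with `x' l ≠ 0` has `l ∈ S`, `bl l = bl (v k)`, `l ≥ v i ≥ v k`; if `l ≠ v k` then `v⁻¹ l < k` (otherwise `prc (v k) l`), so
  `l = v p` with `p < k`: these are exactly the subtracted terms (the subtracted terms with `v p < v i` are zero since `b (v i) (v p) = 0`).
  So only `l = v k` remains, which occurs only for `v i = v k`, i.e. `i = k`.
  If `bl (v i) ≠ bl (v k)` then `bl (v k) < bl (v i)` (monotone) and `D' i k = 0`, `D' i p = b (v i) (v p) = 0` for `bl (v p) = bl (v k)` as `v p < v i` (monotone).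
So `D''` satisfies `D'' i j = 0` whenever `v j < v i`: it is block triangular for the injective function `i ↦ v i`, and its determinant is the product of its diagonal
entries, as in `CMT.det_conj_ne` (A/A1.lean).
-/

open MvPolynomial

noncomputable section

namespace CE

open CMT

variable {n : ℕ}

private theorem fm1_sum {R : Type*} [AddCommMonoid R] {K : ℕ} (hK : K ≤ n) (f : Fin n → R)
    (h : ∀ l : Fin n, K ≤ l.val → f l = 0) : ∑ l, f l = ∑ l : Fin K, f (Fin.castLE hK l) := by
  symm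
  refine Fintype.sum_of_injective (Fin.castLE hK) (Fin.castLE_injective hK) _ _ (fun l hl => ?_)
    (fun _ => rfl)
  apply h
  by_contra hlt
  exact hl ⟨⟨l.val, by omega⟩, by ext; rfl⟩

theorem fm1_inv_self (v : Equiv.Perm (Fin n)) (i : Fin n) : v⁻¹ (v i) = i := by simp

/-- the coefficient of the last column -/
def fm1_w (bl : Fin n → ℕ) (v : Equiv.Perm (Fin n)) (x' : Fin n → ℂ) (κ l : Fin n) : ℂ :=
  if κ < l ∧ bl l = bl κ then x' l else 0

theorem fm1_key {bl : Fin n → ℕ} (hbl : Monotone bl) (v : Equiv.Perm (Fin n))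
    {S : Finset (Fin n)} {b : Matrix (Fin n) (Fin n) ℂ} (hb : IsUpper b)
    {x' : Fin n → ℂ} (hx : ∀ j, j ∉ S → x' j = 0) (k : ℕ) (hk : k < n)
    (hmax : ∀ i ∈ S, ¬ prc bl v (v ⟨k, hk⟩) i) (a : Fin n) (ha : v ⟨k, hk⟩ ≤ a) :
    (if bl a = bl (v ⟨k, hk⟩) then ((bdg bl b).mulVec x') a else 0) =
      ∑ p : Fin k, b a (v (Fin.castLE hk.le p)) *
        fm1_w bl v x' (v ⟨k, hk⟩) (v (Fin.castLE hk.le p)) +
      (if a = v ⟨k, hk⟩ then b (v ⟨k, hk⟩) (v ⟨k, hk⟩) * x' (v ⟨k, hk⟩) else 0) := by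
  by_cases hbk : bl a = bl (v ⟨k, hk⟩)
  · rw [if_pos hbk]
    have e1 : ((bdg bl b).mulVec x') a = ∑ m, bdg bl b a (v m) * x' (v m) := by
      rw [Matrix.mulVec, dotProduct]
      exact (Equiv.sum_comp v (fun l => bdg bl b a l * x' l)).symm
    rw [e1, fm1_sum (K := k + 1) hk (fun m => bdg bl b a (v m) * x' (v m)), Fin.sum_univ_castSucc]
    · congr 1
      · refine Finset.sum_congr rfl fun p _ => ?_
        have e2 : (Fin.castLE hk p.castSucc : Fin n) = Fin.castLE hk.le p := Fin.ext rfl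
        rw [e2]
        unfold fm1_w bdg
        by_cases h1 : bl (v (Fin.castLE hk.le p)) = bl (v ⟨k, hk⟩)
        · rw [if_pos (hbk.trans h1.symm)]
          by_cases h2 : v ⟨k, hk⟩ < v (Fin.castLE hk.le p)
          · rw [if_pos ⟨h2, h1⟩]
          · have h3 : v (Fin.castLE hk.le p) ≠ v ⟨k, hk⟩ := by
              intro h
              have h4 := congrArg Fin.val (v.injective h)
              have h5 : (Fin.castLE hk.le p : Fin n).val = p.val := rfl
              have h6 : p.val = k := h4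
              exact absurd p.2 (by omega)
            have h4 : v (Fin.castLE hk.le p) < a :=
              lt_of_lt_of_le (lt_of_le_of_ne (not_lt.1 h2) h3) ha
            rw [hb.1 _ _ h4, zero_mul, zero_mul]
        · rw [if_neg (fun h => h1 (h.symm.trans hbk)), if_neg (fun h => h1 h.2), zero_mul, mul_zero]
      · have e2 : (Fin.castLE hk (Fin.last k) : Fin n) = ⟨k, hk⟩ := Fin.ext rfl
        rw [e2, bdg, if_pos hbk]
        by_cases h1 : a = v ⟨k, hk⟩
        · rw [if_pos h1, h1]
        · rw [if_neg h1, hb.1 _ _ (lt_of_le_of_ne ha (Ne.symm h1)), zero_mul]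
    · intro m hm
      show bdg bl b a (v m) * x' (v m) = 0
      rw [bdg]
      by_cases h1 : bl a = bl (v m)
      · rw [if_pos h1]
        by_cases h2 : v m < a
        · rw [hb.1 _ _ h2, zero_mul]
        · have h3 : v ⟨k, hk⟩ ≤ v m := ha.trans (not_lt.1 h2)
          have h4 : v ⟨k, hk⟩ ≠ v m := by
            intro h
            have h5 := congrArg Fin.val (v.injective h)
            have h6 : k = m.val := h5
            omega
          have h5 : v m ∉ S := by
            intro hS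
            refine hmax _ hS ⟨lt_of_le_of_ne h3 h4, hbk.symm.trans h1, ?_⟩
            rw [fm1_inv_self, fm1_inv_self]
            exact hm
          rw [hx _ h5, mul_zero]
      · rw [if_neg h1, zero_mul]
  · have h1 : a ≠ v ⟨k, hk⟩ := fun h => hbk (by rw [h])
    rw [if_neg hbk, if_neg h1, add_zero]
    symm
    refine Finset.sum_eq_zero fun p _ => ?_
    unfold fm1_w
    by_cases h2 : v ⟨k, hk⟩ < v (Fin.castLE hk.le p) ∧
        bl (v (Fin.castLE hk.le p)) = bl (v ⟨k, hk⟩)
    · have h3 : v (Fin.castLE hk.le p) < a := by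
        by_contra h
        have h4 := hbl (not_lt.1 h)
        have h5 := hbl ha
        rw [h2.2] at h4
        exact hbk (le_antisymm h4 h5)
      rw [hb.1 _ _ h3, zero_mul]
    · rw [if_neg h2, mul_zero]

/-- the left factor -/
def fm1_E (bl : Fin n → ℕ) (v : Equiv.Perm (Fin n)) (b : Matrix (Fin n) (Fin n) ℂ)
    (x' : Fin n → ℂ) (k : ℕ) (hk : k < n) : Matrix (Fin (k + 1)) (Fin (k + 1)) ℂ :=
  Matrix.of fun i j : Fin (k + 1) =>
    if j.val < k then b (v (Fin.castLE hk i)) (v (Fin.castLE hk j))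
    else (if bl (v (Fin.castLE hk i)) = bl (v ⟨k, hk⟩) then
        ((bdg bl b).mulVec x') (v (Fin.castLE hk i)) else 0) -
      ∑ p : Fin k, b (v (Fin.castLE hk i)) (v (Fin.castLE hk.le p)) *
        fm1_w bl v x' (v ⟨k, hk⟩) (v (Fin.castLE hk.le p))

/-- the right factor -/
def fm1_W (bl : Fin n → ℕ) (v : Equiv.Perm (Fin n)) (b' : Matrix (Fin n) (Fin n) ℂ)
    (x' : Fin n → ℂ) (k : ℕ) (hk : k < n) : Matrix (Fin (k + 1)) (Fin (k + 1)) ℂ :=
  Matrix.of fun i j : Fin (k + 1) =>
    if i.val < k then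
      (if j.val < k then b' (Fin.castLE hk i) (Fin.castLE hk j)
        else fm1_w bl v x' (v ⟨k, hk⟩) (v (Fin.castLE hk i)))
    else (if j.val < k then 0 else 1)

theorem fm1_detW (bl : Fin n → ℕ) (v : Equiv.Perm (Fin n)) {b' : Matrix (Fin n) (Fin n) ℂ}
    (hb' : IsUpper b') (x' : Fin n → ℂ) (k : ℕ) (hk : k < n) :
    (fm1_W bl v b' x' k hk).det =
      ∏ p : Fin k, b' (Fin.castLE hk.le p) (Fin.castLE hk.le p) := by
  rw [Matrix.det_of_upperTriangular, Fin.prod_univ_castSucc]
  · have e1 : fm1_W bl v b' x' k hk (Fin.last k) (Fin.last k) = 1 := by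
      simp [fm1_W]
    rw [e1, mul_one]
    refine Finset.prod_congr rfl fun p _ => ?_
    have h1 : (p.castSucc : Fin (k + 1)).val < k := p.2
    simp only [fm1_W, Matrix.of_apply, if_pos h1]
    rfl
  · intro i j hij
    have hij' : j.val < i.val := hij
    have h2 := i.2
    by_cases hi : i.val < k
    · have hj : j.val < k := by omega
      simp only [fm1_W, Matrix.of_apply, if_pos hi, if_pos hj]
      exact hb'.1 _ _ hij
    · have hj : j.val < k := by omega
      simp only [fm1_W, Matrix.of_apply, if_neg hi, if_pos hj]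

theorem fm1_detE {bl : Fin n → ℕ} (hbl : Monotone bl) (v : Equiv.Perm (Fin n))
    {S : Finset (Fin n)} {b : Matrix (Fin n) (Fin n) ℂ} (hb : IsUpper b)
    {x' : Fin n → ℂ} (hx : ∀ j, j ∉ S → x' j = 0) (k : ℕ) (hk : k < n)
    (hmax : ∀ i ∈ S, ¬ prc bl v (v ⟨k, hk⟩) i) :
    (fm1_E bl v b x' k hk).det =
      (∏ p : Fin (k + 1), b (v (Fin.castLE hk p)) (v (Fin.castLE hk p))) * x' (v ⟨k, hk⟩) := by
  have hinj : Function.Injective (fun i : Fin (k + 1) => v (Fin.castLE hk i)) :=
    v.injective.comp (Fin.castLE_injective hk)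
  have hlast : ∀ i : Fin (k + 1), v ⟨k, hk⟩ ≤ v (Fin.castLE hk i) →
      fm1_E bl v b x' k hk i (Fin.last k) =
        if v (Fin.castLE hk i) = v ⟨k, hk⟩ then b (v ⟨k, hk⟩) (v ⟨k, hk⟩) * x' (v ⟨k, hk⟩)
        else 0 := by
    intro i hi
    have h1 : ¬ (Fin.last k).val < k := by simp
    simp only [fm1_E, Matrix.of_apply, if_neg h1]
    rw [fm1_key hbl v hb hx k hk hmax _ hi]
    ring
  have hbt : (fm1_E bl v b x' k hk).BlockTriangular
      (fun i : Fin (k + 1) => v (Fin.castLE hk i)) := by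
    intro i j hij
    have hij' : v (Fin.castLE hk j) < v (Fin.castLE hk i) := hij
    by_cases hj : j.val < k
    · simp only [fm1_E, Matrix.of_apply, if_pos hj]
      exact hb.1 _ _ hij
    · have h1 : j = Fin.last k := Fin.ext (by have := j.2; simp only [Fin.val_last]; omega)
      subst h1
      have e2 : (Fin.castLE hk (Fin.last k) : Fin n) = ⟨k, hk⟩ := Fin.ext rfl
      rw [e2] at hij'
      rw [hlast i hij'.le, if_neg (ne_of_gt hij')]
  have hdet : (fm1_E bl v b x' k hk).det = ∏ i, fm1_E bl v b x' k hk i i := by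
    letI : LinearOrder (Fin (k + 1)) :=
      LinearOrder.lift' (fun i : Fin (k + 1) => v (Fin.castLE hk i)) hinj
    exact Matrix.det_of_upperTriangular (fun i j hij => hbt hij)
  rw [hdet, Fin.prod_univ_castSucc, Fin.prod_univ_castSucc, mul_assoc]
  congr 1
  · refine Finset.prod_congr rfl fun p _ => ?_
    have h1 : (p.castSucc : Fin (k + 1)).val < k := p.2
    simp only [fm1_E, Matrix.of_apply, if_pos h1]
  · have e2 : (Fin.castLE hk (Fin.last k) : Fin n) = ⟨k, hk⟩ := Fin.ext rfl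
    rw [hlast _ (by rw [e2]), e2, if_pos rfl]

theorem fm1_mul (bl : Fin n → ℕ) (v : Equiv.Perm (Fin n))
    (b : Matrix (Fin n) (Fin n) ℂ) {b' : Matrix (Fin n) (Fin n) ℂ} (hb' : IsUpper b')
    (x' : Fin n → ℂ) (k : ℕ) (hk : k < n) :
    (Matrix.of fun i j : Fin (k + 1) =>
      if h : j.val < k then (b * permMat ℂ v * b') (v (Fin.castLE hk i)) ⟨j.val, h.trans hk⟩
      else if bl (v (Fin.castLE hk i)) = bl (v ⟨k, hk⟩) then
        ((bdg bl b).mulVec x') (v (Fin.castLE hk i)) else 0) =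
      fm1_E bl v b x' k hk * fm1_W bl v b' x' k hk := by
  ext i j
  rw [Matrix.of_apply, Matrix.mul_apply, Fin.sum_univ_castSucc]
  have hl : ¬ (Fin.last k).val < k := by simp
  by_cases hj : j.val < k
  · rw [dif_pos hj]
    have e1 : fm1_W bl v b' x' k hk (Fin.last k) j = 0 := by
      simp only [fm1_W, Matrix.of_apply, if_neg hl, if_pos hj]
    rw [e1, mul_zero, add_zero, Matrix.mul_apply, fm1_sum hk.le]
    · refine Finset.sum_congr rfl fun p _ => ?_
      have h1 : (p.castSucc : Fin (k + 1)).val < k := p.2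
      simp only [fm1_E, fm1_W, Matrix.of_apply, if_pos h1, if_pos hj, mul_permMat_apply]
      rfl
    · intro l hl'
      rw [hb'.1 l ⟨j.val, hj.trans hk⟩ (by
        rw [Fin.lt_def]
        exact lt_of_lt_of_le hj hl'), mul_zero]
  · rw [dif_neg hj]
    have e1 : fm1_W bl v b' x' k hk (Fin.last k) j = 1 := by
      simp only [fm1_W, Matrix.of_apply, if_neg hl, if_neg hj]
    have e3 : ∀ p : Fin k, fm1_E bl v b x' k hk i p.castSucc * fm1_W bl v b' x' k hk p.castSucc j =
        b (v (Fin.castLE hk i)) (v (Fin.castLE hk.le p)) *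
          fm1_w bl v x' (v ⟨k, hk⟩) (v (Fin.castLE hk.le p)) := by
      intro p
      have h1 : (p.castSucc : Fin (k + 1)).val < k := p.2
      simp only [fm1_E, fm1_W, Matrix.of_apply, if_pos h1, if_neg hj]
      rfl
    rw [e1, mul_one, Finset.sum_congr rfl (fun p _ => e3 p)]
    simp only [fm1_E, Matrix.of_apply, if_neg hl]
    ring

theorem Fm_semi {bl : Fin n → ℕ} (hbl : Monotone bl) (v : Equiv.Perm (Fin n))
    {S : Finset (Fin n)} {b b' : Matrix (Fin n) (Fin n) ℂ} (hb : IsUpper b) (hb' : IsUpper b')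
    {x' : Fin n → ℂ} (hx : ∀ j, j ∉ S → x' j = 0) (k : ℕ) (hk : k < n)
    (hmax : ∀ i ∈ S, ¬ prc bl v (v ⟨k, hk⟩) i) :
    Fm bl v k hk (b * permMat ℂ v * b') ((bdg bl b).mulVec x') =
      (∏ p : Fin k, b' (Fin.castLE hk.le p) (Fin.castLE hk.le p)) *
      (∏ p : Fin (k + 1), b (v (Fin.castLE hk p)) (v (Fin.castLE hk p))) * x' (v ⟨k, hk⟩) := by
  unfold Fm
  rw [fm1_mul bl v b hb' x' k hk, Matrix.det_mul, fm1_detE hbl v hb hx k hk hmax,
    fm1_detW bl v hb' x' k hk]
  ring

end CE
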