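import Pool.Agent.H43.CE.N.Bdg

/-!
# CE, job N-Fm2 : elementary properties of `Fm`

* `Fm_map`: `RingHom.map_det` (or `f (det A) = det (A.map f)`), entrywise.
* `Fm_xq`: the columns `0..q-1` of `g * xq t` are those of `g`, column `q` is `g_q + t * g_{q+1}` (`CMT.c3b_xq_apply` in Ch/C3b.lean: note `q0 q hq`, `q1 q hq` have values `q`, `q+1`),
  columns of `g * S`: column `q` is `g_{q+1}`, columns `< q` unchanged (`CMT.mul_permMat_apply`).  `Fm bl w (q+1)` uses columns `0..q` of `M` and `x`; multilinearity in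
  column `q` (`Matrix.det_updateCol_add`, `Matrix.det_updateCol_smul`).  Compare `CMT.delta_xq` (A/A6.lean).
* `Fm_sr_xq`: column `q` of `g * S * xq t` is `g_{q+1} + t * g_q`.
* `Fm_rows`: the rows of `Fm bl (w * sr q hq) (q+1)` are those of `Fm bl w (q+1)` with rows `q`, `q+1` exchanged (the block of the last row is the same by `h`).
-/

open MvPolynomial

noncomputable section

namespace CE

open CMT

variable {n : ℕ} {R : Type*} [CommRing R]

/-- the matrix in the definition of `Fm` -/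
def Fm2_mat (bl : Fin n → ℕ) (v : Equiv.Perm (Fin n)) (k : ℕ) (hk : k < n)
    (M : Matrix (Fin n) (Fin n) R) (x : Fin n → R) : Matrix (Fin (k + 1)) (Fin (k + 1)) R :=
  Matrix.of fun i j : Fin (k + 1) =>
    if h : j.val < k then M (v (Fin.castLE hk i)) ⟨j.val, h.trans hk⟩
    else if bl (v (Fin.castLE hk i)) = bl (v ⟨k, hk⟩) then x (v (Fin.castLE hk i)) else 0

theorem Fm2_eq (bl : Fin n → ℕ) (v : Equiv.Perm (Fin n)) (k : ℕ) (hk : k < n)
    (M : Matrix (Fin n) (Fin n) R) (x : Fin n → R) :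
    Fm bl v k hk M x = (Fm2_mat bl v k hk M x).det := rfl

theorem Fm2_lt (bl : Fin n → ℕ) (v : Equiv.Perm (Fin n)) (k : ℕ) (hk : k < n)
    (M : Matrix (Fin n) (Fin n) R) (x : Fin n → R) (i j : Fin (k + 1)) (h : j.val < k) :
    Fm2_mat bl v k hk M x i j = M (v (Fin.castLE hk i)) ⟨j.val, h.trans hk⟩ := dif_pos h

theorem Fm2_ge (bl : Fin n → ℕ) (v : Equiv.Perm (Fin n)) (k : ℕ) (hk : k < n)
    (M : Matrix (Fin n) (Fin n) R) (x : Fin n → R) (i j : Fin (k + 1)) (h : ¬ j.val < k) :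
    Fm2_mat bl v k hk M x i j =
      if bl (v (Fin.castLE hk i)) = bl (v ⟨k, hk⟩) then x (v (Fin.castLE hk i)) else 0 :=
  dif_neg h

theorem Fm_map {S : Type*} [CommRing S] (f : R →+* S) (bl : Fin n → ℕ) (v : Equiv.Perm (Fin n))
    (k : ℕ) (hk : k < n) (M : Matrix (Fin n) (Fin n) R) (x : Fin n → R) :
    f (Fm bl v k hk M x) = Fm bl v k hk (M.map f) (fun j => f (x j)) := by
  rw [Fm2_eq, Fm2_eq, RingHom.map_det]
  congr 1
  ext i j
  rw [RingHom.mapMatrix_apply, Matrix.map_apply]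
  by_cases h : j.val < k
  · rw [Fm2_lt _ _ _ _ _ _ _ _ h, Fm2_lt _ _ _ _ _ _ _ _ h, Matrix.map_apply]
  · rw [Fm2_ge _ _ _ _ _ _ _ _ h, Fm2_ge _ _ _ _ _ _ _ _ h]
    split_ifs
    · rfl
    · exact map_zero f

/-- linearity in column `q` -/
theorem Fm2_lin (bl : Fin n → ℕ) (q : ℕ) (hq : q + 1 < n) (w : Equiv.Perm (Fin n))
    (g1 g2 g3 : Matrix (Fin n) (Fin n) R) (x : Fin n → R) (α β : R)
    (h12 : ∀ i j : Fin n, j.val < q → g1 i j = g2 i j)
    (h32 : ∀ i j : Fin n, j.val < q → g3 i j = g2 i j)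
    (h : ∀ i, g1 i (q0 q hq) = α * g2 i (q0 q hq) + β * g3 i (q0 q hq)) :
    Fm bl w (q + 1) hq g1 x = α * Fm bl w (q + 1) hq g2 x + β * Fm bl w (q + 1) hq g3 x := by
  have hjq : q < q + 1 + 1 := by omega
  have hu : ∀ g : Matrix (Fin n) (Fin n) R, (∀ i j : Fin n, j.val < q → g i j = g2 i j) →
      ∀ c : Fin (q + 1 + 1) → R,
      (∀ i : Fin (q + 1 + 1), g (w (Fin.castLE hq i)) (q0 q hq) = c i) →
      Fm2_mat bl w (q + 1) hq g x =
        (Fm2_mat bl w (q + 1) hq g2 x).updateCol ⟨q, hjq⟩ c := by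
    intro g hg c hc
    ext i j
    by_cases hj : j = ⟨q, hjq⟩
    · rw [hj, Matrix.updateCol_self, Fm2_lt _ _ _ _ _ _ _ _ (Nat.lt_succ_self q)]
      exact hc i
    · rw [Matrix.updateCol_ne hj]
      by_cases hlt : j.val < q + 1
      · rw [Fm2_lt _ _ _ _ _ _ _ _ hlt, Fm2_lt _ _ _ _ _ _ _ _ hlt]
        apply hg
        show j.val < q
        have h1 : j.val ≠ q := fun h2 => hj (Fin.ext h2)
        omega
      · rw [Fm2_ge _ _ _ _ _ _ _ _ hlt, Fm2_ge _ _ _ _ _ _ _ _ hlt]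
  rw [Fm2_eq, Fm2_eq, Fm2_eq,
    hu g1 h12 ((α • fun i : Fin (q + 1 + 1) => g2 (w (Fin.castLE hq i)) (q0 q hq)) +
      (β • fun i : Fin (q + 1 + 1) => g3 (w (Fin.castLE hq i)) (q0 q hq))) (fun i => h _),
    Matrix.det_updateCol_add, Matrix.det_updateCol_smul, Matrix.det_updateCol_smul,
    ← hu g2 (fun _ _ _ => rfl) (fun i => g2 (w (Fin.castLE hq i)) (q0 q hq)) (fun _ => rfl),
    ← hu g3 h32 (fun i => g3 (w (Fin.castLE hq i)) (q0 q hq)) (fun _ => rfl)]

theorem Fm2_sr_lt (q : ℕ) (hq : q + 1 < n) (g : Matrix (Fin n) (Fin n) R) (i j : Fin n)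
    (hj : j.val < q) : (g * permMat R (sr q hq)) i j = g i j := by
  rw [mul_permMat_apply]
  have h : sr q hq j = j := by
    unfold sr
    apply Equiv.swap_apply_of_ne_of_ne
    · intro h1
      rw [h1] at hj
      exact lt_irrefl _ hj
    · intro h1
      rw [h1] at hj
      have h2 : (q1 q hq).val = q + 1 := rfl
      omega
  rw [h]

theorem Fm_xq (bl : Fin n → ℕ) (q : ℕ) (hq : q + 1 < n) (w : Equiv.Perm (Fin n))
    (g : Matrix (Fin n) (Fin n) R) (x : Fin n → R) (t : R) :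
    Fm bl w (q + 1) hq (g * xq q hq t) x = Am bl q hq w g x * t - Bm bl q hq w g x := by
  unfold Am Bm
  rw [Fm2_lin bl q hq w (g * xq q hq t) g (g * permMat R (sr q hq)) x 1 t]
  · ring
  · intro i j hj
    rw [c3b_xq_apply, if_neg, add_zero]
    rintro rfl
    exact lt_irrefl _ hj
  · intro i j hj
    exact Fm2_sr_lt q hq g i j hj
  · intro i
    rw [c3b_xq_apply, if_pos rfl, mul_permMat_apply, c3b_sr_q0]
    ring

theorem Fm_sr_xq (bl : Fin n → ℕ) (q : ℕ) (hq : q + 1 < n) (w : Equiv.Perm (Fin n))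
    (g : Matrix (Fin n) (Fin n) R) (x : Fin n → R) (t : R) :
    Fm bl w (q + 1) hq (g * permMat R (sr q hq) * xq q hq t) x =
      Am bl q hq w g x - Bm bl q hq w g x * t := by
  have hss : sr q hq * sr q hq = 1 := by
    unfold sr
    exact Equiv.swap_mul_self _ _
  rw [Fm_xq]
  unfold Am Bm
  rw [Matrix.mul_assoc, ← permMat_mul, hss, permMat_one, Matrix.mul_one]
  ring

theorem Fm_rows (bl : Fin n → ℕ) (q : ℕ) (hq : q + 1 < n) (w : Equiv.Perm (Fin n))
    (h : bl (w (q1 q hq)) = bl (w (q0 q hq))) (M : Matrix (Fin n) (Fin n) R) (x : Fin n → R) :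
    Fm bl (w * sr q hq) (q + 1) hq M x = - Fm bl w (q + 1) hq M x := by
  have hjq : q < q + 1 + 1 := by omega
  have hjq' : q + 1 < q + 1 + 1 := by omega
  have hne : (⟨q, hjq⟩ : Fin (q + 1 + 1)) ≠ ⟨q + 1, hjq'⟩ := by
    intro h1
    have h2 := congrArg Fin.val h1
    simp at h2
  have hrow : ∀ i : Fin (q + 1 + 1), (w * sr q hq) (Fin.castLE hq i) =
      w (Fin.castLE hq (Equiv.swap ⟨q, hjq⟩ ⟨q + 1, hjq'⟩ i)) := by
    intro i
    rw [Equiv.Perm.mul_apply]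
    congr 1
    by_cases h0 : i = ⟨q, hjq⟩
    · rw [h0, Equiv.swap_apply_left]
      exact c3b_sr_q0 q hq
    · by_cases h1 : i = ⟨q + 1, hjq'⟩
      · rw [h1, Equiv.swap_apply_right]
        exact c3b_sr_q1 q hq
      · rw [Equiv.swap_apply_of_ne_of_ne h0 h1]
        unfold sr
        apply Equiv.swap_apply_of_ne_of_ne
        · intro h2
          have h3 : (Fin.castLE hq i).val = q := by rw [h2]; rfl
          exact h0 (Fin.ext h3)
        · intro h2
          have h3 : (Fin.castLE hq i).val = q + 1 := by rw [h2]; rfl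
          exact h1 (Fin.ext h3)
  have hlast : bl ((w * sr q hq) ⟨q + 1, hq⟩) = bl (w ⟨q + 1, hq⟩) := by
    rw [Equiv.Perm.mul_apply]
    have h1 : sr q hq ⟨q + 1, hq⟩ = q0 q hq := c3b_sr_q1 q hq
    rw [h1]
    exact h.symm
  have hmat : Fm2_mat bl (w * sr q hq) (q + 1) hq M x =
      (Fm2_mat bl w (q + 1) hq M x).submatrix
        (Equiv.swap (⟨q, hjq⟩ : Fin (q + 1 + 1)) ⟨q + 1, hjq'⟩) id := by
    ext i j
    rw [Matrix.submatrix_apply, id]
    by_cases hlt : j.val < q + 1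
    · rw [Fm2_lt _ _ _ _ _ _ _ _ hlt, Fm2_lt _ _ _ _ _ _ _ _ hlt, hrow]
    · rw [Fm2_ge _ _ _ _ _ _ _ _ hlt, Fm2_ge _ _ _ _ _ _ _ _ hlt, hrow, hlast]
  rw [Fm2_eq, Fm2_eq, hmat, Matrix.det_permute, Equiv.Perm.sign_swap hne]
  simp

end CE
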