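import Pool.Agent.H43.CE.N.Par

/-!
# CE, job N-PP2 : the sets `PP` and `PP2`

* `pp2_mul_sr`, `pp2_mul_xq`: same `b`, `x'`; `p' * S`, `p' * xq t` are in `Par` (`par_mul_sr`, `par_mul_xq`).
* the `iff` versions: multiply again by `S` (`sr_sr`), `xq (-t)` (`xq_mul_neg`).
* `pp2_of_pp_v`: `Par` contains the upper matrices.
* `pp2_of_pp_w`: `b * permMat w * b' = b * permMat (w * sr) * (S * b')`, `par_sr_upper`.
* `pp2_cell2`: `p` upper: in `Cell (w * sr)`; otherwise `par_snd` (and `w q1 < w q0`, `isUpper_transv`): in `Cell w`.  `Cell2 q hq w = Cell w ∪ Cell (w * sr)`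
  (unfold `CMT.Cell2`).
* `pp2_v` : `g ∈ Cell (w * sr)`, `g = b * permMat (w*sr) * p'`.  If `p'` is of the second kind then `g ∈ Cell w` (`par_snd`), and `cell_disjoint` gives
  `w * sr = w`, contradiction (`mul_sr_ne`).  So `p'` is upper: done with the same `b, x'`.
* `pp2_w` : `g ∈ Cell w`: `p'` is not upper (as before), `p' = T y * S * c`.  Put `bt = b * transvection (w q1) (w q0) y` (upper since `w q1 < w q0`);
  `g = bt * permMat w * c` (`par_snd`).  `bdg bl bt = bdg bl b * bdg bl (transvection (w q1) (w q0) y)` (`bdg_mul`).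
  If `bl (w q1) ≠ bl (w q0)`: `bdg bl bt = bdg bl b`, take the same `x'`.
  If `bl (w q1) = bl (w q0)`: take `xt = (transvection (w q1) (w q0) (-y)).mulVec x'`, i.e. `xt (w q1) = x' (w q1) - y * x' (w q0)` and
  `xt j = x' j` for `j ≠ w q1`; then `(bdg bl bt).mulVec xt = (bdg bl b).mulVec x'` (`Matrix.transvection_mul_transvection_same`).  Support: if
  `w q1 ∉ S` then `w q0 ∉ S` by `hS`, so `xt (w q1) = 0`.  `N`: `w q1 ∉ N`.
-/

open MvPolynomial

noncomputable section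

namespace CE

open CMT

variable {n : ℕ} {q : ℕ} {hq : q + 1 < n} {bl : Fin n → ℕ} {w : Equiv.Perm (Fin n)}
  {S N : Finset (Fin n)}

theorem PP2_transv_mulVec (i k : Fin n) (c : ℂ) (x : Fin n → ℂ) (j : Fin n) :
    (Matrix.transvection i k c).mulVec x j = x j + if j = i then c * x k else 0 := by
  rw [Matrix.transvection, Matrix.add_mulVec, Matrix.one_mulVec, Pi.add_apply]
  congr 1
  rw [Matrix.mulVec, dotProduct, Finset.sum_eq_single k]
  · rw [Matrix.single_apply]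
    by_cases h : j = i
    · rw [if_pos ⟨h.symm, rfl⟩, if_pos h]
    · rw [if_neg (fun h1 => h h1.1.symm), if_neg h, zero_mul]
  · intro l _ hl
    rw [Matrix.single_apply, if_neg (fun h1 => hl h1.2.symm), zero_mul]
  · intro h
    exact absurd (Finset.mem_univ k) h

theorem PP2_srsr (q : ℕ) (hq : q + 1 < n) (g : Matrix (Fin n) (Fin n) ℂ) :
    g * permMat ℂ (sr q hq) * permMat ℂ (sr q hq) = g := by
  rw [Matrix.mul_assoc, ← permMat_mul, sr_sr, permMat_one, Matrix.mul_one]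

theorem pp2_mul_sr {g : Matrix (Fin n) (Fin n) ℂ} {x : Fin n → ℂ}
    (h : (g, x) ∈ PP2 bl q hq w S N) : (g * permMat ℂ (sr q hq), x) ∈ PP2 bl q hq w S N := by
  obtain ⟨b, p', x', hb, hp, hxS, hxN, h1, h2⟩ := h
  refine ⟨b, p' * permMat ℂ (sr q hq), x', hb, par_mul_sr hp, hxS, hxN, ?_, h2⟩
  rw [← Matrix.mul_assoc]
  exact congrArg (fun m => m * permMat ℂ (sr q hq)) h1

theorem pp2_mul_xq {g : Matrix (Fin n) (Fin n) ℂ} {x : Fin n → ℂ}
    (h : (g, x) ∈ PP2 bl q hq w S N) (t : ℂ) : (g * xq q hq t, x) ∈ PP2 bl q hq w S N := by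
  obtain ⟨b, p', x', hb, hp, hxS, hxN, h1, h2⟩ := h
  refine ⟨b, p' * xq q hq t, x', hb, par_mul_xq hp t, hxS, hxN, ?_, h2⟩
  rw [← Matrix.mul_assoc]
  exact congrArg (fun m => m * xq q hq t) h1

theorem pp2_mul_sr_iff {g : Matrix (Fin n) (Fin n) ℂ} {x : Fin n → ℂ} :
    (g * permMat ℂ (sr q hq), x) ∈ PP2 bl q hq w S N ↔ (g, x) ∈ PP2 bl q hq w S N := by
  constructor
  · intro h
    have h1 := pp2_mul_sr h
    rw [PP2_srsr] at h1
    exact h1
  · exact pp2_mul_sr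

theorem pp2_mul_xq_iff {g : Matrix (Fin n) (Fin n) ℂ} {x : Fin n → ℂ} (t : ℂ) :
    (g * xq q hq t, x) ∈ PP2 bl q hq w S N ↔ (g, x) ∈ PP2 bl q hq w S N := by
  constructor
  · intro h
    have h1 := pp2_mul_xq h (-t)
    rw [Matrix.mul_assoc, xq_mul_neg, Matrix.mul_one] at h1
    exact h1
  · intro h
    exact pp2_mul_xq h t

theorem pp2_of_pp_v {p : Matrix (Fin n) (Fin n) ℂ × (Fin n → ℂ)}
    (h : p ∈ PP bl (w * sr q hq) S N) : p ∈ PP2 bl q hq w S N := by
  obtain ⟨b, b', x', hb, hb', hxS, hxN, h1, h2⟩ := h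
  exact ⟨b, b', x', hb, par_of_upper hb', hxS, hxN, h1, h2⟩

theorem pp2_of_pp_w {p : Matrix (Fin n) (Fin n) ℂ × (Fin n → ℂ)}
    (h : p ∈ PP bl w S N) : p ∈ PP2 bl q hq w S N := by
  obtain ⟨b, b', x', hb, hb', hxS, hxN, h1, h2⟩ := h
  refine ⟨b, permMat ℂ (sr q hq) * b', x', hb, par_sr_upper hb', hxS, hxN, ?_, h2⟩
  rw [h1, permMat_mul, ← Matrix.mul_assoc, ← Matrix.mul_assoc, PP2_srsr]

theorem pp_cell {v : Equiv.Perm (Fin n)} {g : Matrix (Fin n) (Fin n) ℂ} {x : Fin n → ℂ}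
    (h : (g, x) ∈ PP bl v S N) : g ∈ Cell v := by
  obtain ⟨b, b', x', hb, hb', hxS, hxN, h1, h2⟩ := h
  exact ⟨b, b', hb, hb', h1⟩

theorem pp2_cell2 (hw : dsc w q hq) {g : Matrix (Fin n) (Fin n) ℂ} {x : Fin n → ℂ}
    (h : (g, x) ∈ PP2 bl q hq w S N) : g ∈ Cell2 q hq w := by
  obtain ⟨b, p', x', hb, hp, hxS, hxN, h1, h2⟩ := h
  rcases hp with hp | ⟨y, c, hc, hp⟩
  · right
    exact ⟨b, p', hb, hp, h1⟩
  · left
    refine ⟨b * Matrix.transvection (w (q1 q hq)) (w (q0 q hq)) y, c,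
      hb.mul (isUpper_transv hw y), hc, ?_⟩
    rw [← par_snd, ← hp]
    exact h1

theorem pp2_v (hw : dsc w q hq) {g : Matrix (Fin n) (Fin n) ℂ} {x : Fin n → ℂ}
    (h : (g, x) ∈ PP2 bl q hq w S N) (hg : g ∈ Cell (w * sr q hq)) :
    (g, x) ∈ PP bl (w * sr q hq) S N := by
  obtain ⟨b, p', x', hb, hp, hxS, hxN, h1, h2⟩ := h
  rcases hp with hp | ⟨y, c, hc, hp⟩
  · exact ⟨b, p', x', hb, hp, hxS, hxN, h1, h2⟩
  · exfalso
    have h3 : g ∈ Cell w := by
      refine ⟨b * Matrix.transvection (w (q1 q hq)) (w (q0 q hq)) y, c,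
        hb.mul (isUpper_transv hw y), hc, ?_⟩
      rw [← par_snd, ← hp]
      exact h1
    exact mul_sr_ne w q hq (cell_disjoint hg h3)

theorem pp2_w (hbl : Monotone bl) (hw : dsc w q hq)
    (hS : bl (w (q1 q hq)) = bl (w (q0 q hq)) → w (q0 q hq) ∈ S → w (q1 q hq) ∈ S)
    (hN : w (q1 q hq) ∉ N) {g : Matrix (Fin n) (Fin n) ℂ} {x : Fin n → ℂ}
    (h : (g, x) ∈ PP2 bl q hq w S N) (hg : g ∈ Cell w) : (g, x) ∈ PP bl w S N := by
  obtain ⟨b, p', x', hb, hp, hxS, hxN, h1, h2⟩ := h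
  rcases hp with hp | ⟨y, c, hc, hp⟩
  · exfalso
    have h3 : g ∈ Cell (w * sr q hq) := ⟨b, p', hb, hp, h1⟩
    exact mul_sr_ne w q hq (cell_disjoint h3 hg)
  · have hT : IsUpper (Matrix.transvection (w (q1 q hq)) (w (q0 q hq)) y) := isUpper_transv hw y
    have h3 : g = b * Matrix.transvection (w (q1 q hq)) (w (q0 q hq)) y * permMat ℂ w * c := by
      rw [← par_snd, ← hp]
      exact h1
    have h4 : x = (bdg bl b).mulVec x' := h2
    have h5 : bdg bl (b * Matrix.transvection (w (q1 q hq)) (w (q0 q hq)) y) =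
        bdg bl b * bdg bl (Matrix.transvection (w (q1 q hq)) (w (q0 q hq)) y) :=
      bdg_mul hbl hb.1 hT.1
    by_cases hb0 : bl (w (q1 q hq)) = bl (w (q0 q hq))
    · have hne : w (q1 q hq) ≠ w (q0 q hq) := ne_of_lt hw
      refine ⟨b * Matrix.transvection (w (q1 q hq)) (w (q0 q hq)) y, c,
        (Matrix.transvection (w (q1 q hq)) (w (q0 q hq)) (-y)).mulVec x', hb.mul hT, hc, ?_, ?_,
        h3, ?_⟩
      · intro j hj
        rw [PP2_transv_mulVec, hxS j hj, zero_add]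
        by_cases hj1 : j = w (q1 q hq)
        · rw [if_pos hj1, hxS (w (q0 q hq)), mul_zero]
          intro h6
          apply hj
          rw [hj1]
          exact hS hb0 h6
        · rw [if_neg hj1]
      · intro j hj
        have hj1 : j ≠ w (q1 q hq) := by
          intro h6
          rw [h6] at hj
          exact hN hj
        rw [PP2_transv_mulVec, if_neg hj1, add_zero]
        exact hxN j hj
      · show x = _
        rw [h4, h5, bdg_transv_eq bl hb0, Matrix.mulVec_mulVec, Matrix.mul_assoc,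
          Matrix.transvection_mul_transvection_same _ _ hne, add_neg_cancel,
          Matrix.transvection_zero, Matrix.mul_one]
    · refine ⟨b * Matrix.transvection (w (q1 q hq)) (w (q0 q hq)) y, c, x', hb.mul hT, hc, hxS,
        hxN, h3, ?_⟩
      show x = _
      rw [h4, h5, bdg_transv_ne bl hb0, Matrix.mul_one]

end CE
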