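import Pool.Agent.H43.CE.N.Bdg

/-!
# CE, job N-Par : the parabolic subgroup

Write `S = permMat ℂ (sr q hq)`, `T y = Matrix.transvection (q0 q hq) (q1 q hq) y`.
`Par p` : `p` upper or `p = T y * S * c`, `c` upper.
* `par_mul_upper` : clear (`IsUpper.mul`).
* `par_mul_sr` : `p` upper: `p * S = T y * S * c1` by `CMT.upper_split`.
  `p = T y * S * c`: `c * S = T y' * S * c1` (`upper_split`); `S * T y' * S = xq y'` (`permMat_transv`, `sr_q0`, `sr_q1`, `permMat_mul`, `sr_sr`,
  `CMT.xq_eq` in A5), so `p * S = T y * xq y' * c1`. If `y' = 0`: `= T y * c1` upper (`isUpper_transv`). If `y' ≠ 0`: `xq y' = T (1/y') * S * c2`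
  (`CMT.xq_split`), `T y * T (1/y') = T (y + 1/y')` (`Matrix.transvection_mul_transvection_same`), so `p * S = T _ * S * (c2 * c1)`.
* `par_mul_xq` : `t = 0`: `xq 0 = 1`. `t ≠ 0`: `xq t = T (1/t) * S * c` (`xq_split`); `p * T (1/t)` by `par_mul_upper`, then `par_mul_sr`, `par_mul_upper`.
* `par_sr_upper` : `S * c = T 0 * S * c`.
* `par_cell` : the cells of `b * permMat (w * sr) * p` : if `p` is upper: `Cell (w * sr)`. If `p = T y * S * c`:
  `permMat (w*sr) * T y = transvection (w q1) (w q0) y * permMat (w * sr)` (`permMat_transv`; `(w*sr) q0 = w q1`, `(w*sr) q1 = w q0`), and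
  `permMat (w * sr) * S = permMat w`, so `b * permMat (w*sr) * p = (b * transvection (w q1) (w q0) y) * permMat w * c`; `dsc w`: `w q1 < w q0`.
-/

open MvPolynomial

noncomputable section

namespace CE

open CMT

variable {n : ℕ} {q : ℕ} {hq : q + 1 < n}

theorem par_of_upper {p : Matrix (Fin n) (Fin n) ℂ} (h : IsUpper p) : Par q hq p := Or.inl h

theorem par_lt (q : ℕ) (hq : q + 1 < n) : q0 q hq < q1 q hq := by
  rw [Fin.lt_def]
  exact Nat.lt_succ_self q

theorem par_mul_upper {p c : Matrix (Fin n) (Fin n) ℂ} (hp : Par q hq p) (hc : IsUpper c) :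
    Par q hq (p * c) := by
  rcases hp with hp | ⟨y, c', hc', rfl⟩
  · exact Or.inl (hp.mul hc)
  · exact Or.inr ⟨y, c' * c, hc'.mul hc, by rw [Matrix.mul_assoc]⟩

theorem par_ss (q : ℕ) (hq : q + 1 < n) : permMat ℂ (sr q hq) * permMat ℂ (sr q hq) = 1 := by
  rw [← permMat_mul, sr_sr, permMat_one]

theorem par_mul_sr {p : Matrix (Fin n) (Fin n) ℂ} (hp : Par q hq p) :
    Par q hq (p * permMat ℂ (sr q hq)) := by
  rcases hp with hp | ⟨y, c, hc, rfl⟩
  · obtain ⟨y, c1, hc1, he⟩ := upper_split q hq hp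
    exact Or.inr ⟨y, c1, hc1, he⟩
  · obtain ⟨y', c1, hc1, he⟩ := upper_split q hq hc
    have e1 : Matrix.transvection (q0 q hq) (q1 q hq) y * permMat ℂ (sr q hq) * c *
        permMat ℂ (sr q hq) =
        Matrix.transvection (q0 q hq) (q1 q hq) y * xq q hq y' * c1 := by
      have e2 := permMat_transv (R := ℂ) (sr q hq) (q0 q hq) (q1 q hq) y'
      rw [sr_q0, sr_q1] at e2
      calc Matrix.transvection (q0 q hq) (q1 q hq) y * permMat ℂ (sr q hq) * c *
            permMat ℂ (sr q hq)
          = Matrix.transvection (q0 q hq) (q1 q hq) y * permMat ℂ (sr q hq) *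
            (c * permMat ℂ (sr q hq)) := by simp only [Matrix.mul_assoc]
        _ = Matrix.transvection (q0 q hq) (q1 q hq) y *
            ((permMat ℂ (sr q hq) * Matrix.transvection (q0 q hq) (q1 q hq) y') *
              permMat ℂ (sr q hq)) * c1 := by
            rw [he]
            simp only [Matrix.mul_assoc]
        _ = _ := by
            rw [e2, Matrix.mul_assoc (Matrix.transvection (q1 q hq) (q0 q hq) y'), par_ss,
              Matrix.mul_one, xq_eq]
    rw [e1]
    by_cases hy : y' = 0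
    · rw [hy, xq_eq, Matrix.transvection_zero, Matrix.mul_one]
      exact Or.inl ((isUpper_transv (par_lt q hq) _).mul hc1)
    · obtain ⟨c2, hc2, he2⟩ := xq_split q hq hy
      refine Or.inr ⟨y + 1 / y', c2 * c1, hc2.mul hc1, ?_⟩
      rw [he2, ← Matrix.transvection_mul_transvection_same _ _ (par_lt q hq).ne]
      simp only [Matrix.mul_assoc]

theorem par_mul_xq {p : Matrix (Fin n) (Fin n) ℂ} (hp : Par q hq p) (t : ℂ) :
    Par q hq (p * xq q hq t) := by
  by_cases ht : t = 0
  · rw [ht, xq_eq, Matrix.transvection_zero, Matrix.mul_one]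
    exact hp
  · obtain ⟨c, hc, he⟩ := xq_split q hq ht
    rw [he, ← Matrix.mul_assoc, ← Matrix.mul_assoc]
    exact par_mul_upper (par_mul_sr (par_mul_upper hp (isUpper_transv (par_lt q hq) _))) hc

theorem par_sr_upper {c : Matrix (Fin n) (Fin n) ℂ} (hc : IsUpper c) :
    Par q hq (permMat ℂ (sr q hq) * c) :=
  Or.inr ⟨0, c, hc, by rw [Matrix.transvection_zero, Matrix.one_mul]⟩

/-- the second kind of elements of the parabolic subgroup leads to the cell of `w` -/
theorem par_snd (w : Equiv.Perm (Fin n)) (b c : Matrix (Fin n) (Fin n) ℂ) (y : ℂ) :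
    b * permMat ℂ (w * sr q hq) *
      (Matrix.transvection (q0 q hq) (q1 q hq) y * permMat ℂ (sr q hq) * c) =
    b * Matrix.transvection (w (q1 q hq)) (w (q0 q hq)) y * permMat ℂ w * c := by
  have e := permMat_transv (R := ℂ) (w * sr q hq) (q0 q hq) (q1 q hq) y
  rw [Equiv.Perm.mul_apply, Equiv.Perm.mul_apply, sr_q0, sr_q1] at e
  calc b * permMat ℂ (w * sr q hq) *
      (Matrix.transvection (q0 q hq) (q1 q hq) y * permMat ℂ (sr q hq) * c)
      = b * (permMat ℂ (w * sr q hq) * Matrix.transvection (q0 q hq) (q1 q hq) y) *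
        permMat ℂ (sr q hq) * c := by simp only [Matrix.mul_assoc]
    _ = b * Matrix.transvection (w (q1 q hq)) (w (q0 q hq)) y *
        (permMat ℂ (w * sr q hq) * permMat ℂ (sr q hq)) * c := by
        rw [e]
        simp only [Matrix.mul_assoc]
    _ = _ := by rw [← permMat_mul, mul_sr_sr]

end CE
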