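import Pool.Agent.H43.CE.N.ChartMem
import Pool.Agent.H43.CE.N.Fm1
import Pool.Agent.H43.CE.N.Fm2

/-!
# CE, job N-TypeTa : the step of type T (first part: `aeval_AX`, `aeval_BX`, `Tt_iff`, `Tt_ne`)

`w` has a descent at `q`, `a = w q0 > b = w q1`, same block, `a ∈ S`, `b ∉ S`, `IsId bl w S`; `St = insert b S`.
(1) `b` is maximal in `S` and `St` for `w`: `i ∈ St`, `prc bl w b i`: `i ≠ b`, so `i ∈ S`, so `b ∈ S` by `IsId`, contradiction.
(2) `a` is maximal in `St` for `v = w * sr`: `i ∈ St` with `prc bl v a i`: `i ≠ b` (as `b < a`); `v⁻¹ a = q1`, so `v⁻¹ i > q+1`, so `w⁻¹ i = v⁻¹ i > q + 1 = w⁻¹ b`, `b < a < i`: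
    `prc bl w b i`, contradiction to (1).
(L5) `Tt_iff`: for `(M, x) ∈ PP bl w St {a}`: `Fm bl w (q+1) M x = 0 ↔ (M, x) ∈ PP bl w S {a}`.
   `→`: `M = β w β'`, `x = β^bl x'`; `Fm_semi` (k = q+1, `w ⟨q+1,_⟩ = b`, maximality (1)) gives `Fm = unit * x' b`, so `x' b = 0` and `x'` is supported in `S`.
   `←`: from a representation with `x'` supported in `S`: `x' b = 0`, `Fm_semi` with the set `S`.
(L6) `Tt_ne`: for `(M, x) ∈ PP bl (w * sr) St {a}`: `Fm bl w (q+1) M x ≠ 0`: by `Fm_rows` it is `- Fm bl (w*sr) (q+1) M x`, and by `Fm_semi` for `v = w * sr`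
   (`v ⟨q+1,_⟩ = a`, maximality (2)) this is `unit * x' a ≠ 0`.
(3) `typeT_ne`: `(g, x) ∈ PP2 bl q hq w St {a}`, suppose `A = B = 0`.  By `CMT.ab_ne` `aa ≠ 0` or `bb ≠ 0` (`g ∈ Cell2` by `pp2_cell2`).
   If `aa ≠ 0`: `t = bb / aa`: `g * xq t ∈ Cell (w * sr)` (`fibre2`), `(g * xq t, x) ∈ PP bl (w*sr) St {a}` (`pp2_mul_xq`, `pp2_v`), so `0 ≠ Fm .. (g * xq t) x = A t - B = 0` (`Fm_xq`).
   If `aa = 0`: `g * S = g * S * xq 0 ∈ Cell (w * sr)` (`fibre4`), `0 ≠ Fm .. (g * S * xq 0) x = A` (`Fm_sr_xq`).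
(4) `typeT_mem`: with `g, x, t` as in ChartMem: `gamX y ∈ EE bl y0 w S {a} ↔ (g * xq t, x) ∈ PP bl w S {a}`.
   `→`: `PP bl w S {a} ⊆ PP bl w St {a}`; `(g, x) ∈ PP2 bl q hq w St {a}` (`pp2_of_pp_w`, `pp2_mul_xq_iff`); (L5): `Fm = 0`, i.e. `A t = B`.
   `←`: `(g * xq t, x) ∈ PP2 .. St {a}`, `Fm (g * xq t) x = A t - B = 0`.  `g * xq t` is in `Cell2`; it is not in `Cell (w * sr)` (otherwise `pp2_v` and (L6));
   so it is in `Cell w` and `pp2_w` (with `St`, `N = {a}`, `b ∉ {a}`) and (L5).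
(5) `typeT_mem'`: the same with `g * S * xq t`.
`aeval y AX = Am bl q hq w g x`: `Fm_map` with the ring homomorphism `aeval y`, `Matrix.map_mul`, `permMat_map`, `lowMat_map`, `ext0_map` (as `CMT.aeval_aP` in Ch/C2.lean).
-/

open MvPolynomial

noncomputable section

namespace CE

open CMT

variable {n : ℕ} {q : ℕ} {hq : q + 1 < n} {bl : Fin n → ℕ} {w : Equiv.Perm (Fin n)}
  {S : Finset (Fin n)}

theorem aeval_AX (y0 : Equiv.Perm (Fin n)) (y : (Kap n q hq ⊕ Fin n) → ℂ) :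
    aeval y (AX bl y0 w q hq) = Am bl q hq w (permMat ℂ y0 * lowMat (ext0 fun e => y (Sum.inl e)))
      (fun j => y (Sum.inr j)) := by
  unfold AX Am
  have h := Fm_map (aeval y : MvPolynomial (Kap n q hq ⊕ Fin n) ℂ →ₐ[ℂ] ℂ).toRingHom bl w
    (q + 1) hq
    (permMat _ y0 * lowMat (ext0 fun i : Kap n q hq =>
      (X (Sum.inl i) : MvPolynomial (Kap n q hq ⊕ Fin n) ℂ)) * permMat _ (sr q hq))
    (fun j => X (Sum.inr j))
  rw [Matrix.map_mul, Matrix.map_mul, permMat_map, permMat_map, lowMat_map, ext0_map] at h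
  refine Eq.trans h ?_
  have h1 : (fun i : Kap n q hq => (aeval y : MvPolynomial (Kap n q hq ⊕ Fin n) ℂ →ₐ[ℂ] ℂ).toRingHom
      (X (Sum.inl i))) = fun e => y (Sum.inl e) := by
    ext i
    simp
  have h2 : (fun j : Fin n => (aeval y : MvPolynomial (Kap n q hq ⊕ Fin n) ℂ →ₐ[ℂ] ℂ).toRingHom
      (X (Sum.inr j))) = fun j => y (Sum.inr j) := by
    ext i
    simp
  rw [h1, h2]

theorem aeval_BX (y0 : Equiv.Perm (Fin n)) (y : (Kap n q hq ⊕ Fin n) → ℂ) :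
    aeval y (BX bl y0 w q hq) = Bm bl q hq w (permMat ℂ y0 * lowMat (ext0 fun e => y (Sum.inl e)))
      (fun j => y (Sum.inr j)) := by
  unfold BX Bm
  rw [map_neg]
  have h := Fm_map (aeval y : MvPolynomial (Kap n q hq ⊕ Fin n) ℂ →ₐ[ℂ] ℂ).toRingHom bl w
    (q + 1) hq
    (permMat _ y0 * lowMat (ext0 fun i : Kap n q hq =>
      (X (Sum.inl i) : MvPolynomial (Kap n q hq ⊕ Fin n) ℂ)))
    (fun j => X (Sum.inr j))
  rw [Matrix.map_mul, permMat_map, lowMat_map, ext0_map] at h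
  have h1 : (fun i : Kap n q hq => (aeval y : MvPolynomial (Kap n q hq ⊕ Fin n) ℂ →ₐ[ℂ] ℂ).toRingHom
      (X (Sum.inl i))) = fun e => y (Sum.inl e) := by
    ext i
    simp
  have h2 : (fun j : Fin n => (aeval y : MvPolynomial (Kap n q hq ⊕ Fin n) ℂ →ₐ[ℂ] ℂ).toRingHom
      (X (Sum.inr j))) = fun j => y (Sum.inr j) := by
    ext i
    simp
  rw [h1, h2] at h
  exact congrArg Neg.neg h

theorem TypeTa_inv1 (w : Equiv.Perm (Fin n)) (i : Fin n) : w⁻¹ (w i) = i :=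
  w.symm_apply_apply i

theorem TypeTa_inv2 (w : Equiv.Perm (Fin n)) (i : Fin n) : w (w⁻¹ i) = i :=
  w.apply_symm_apply i

/-- maximality (1) -/
theorem TypeTa_max1 {T : Finset (Fin n)} (hid : IsId bl w S) (hb : w (q1 q hq) ∉ S)
    (hT : ∀ i ∈ T, i = w (q1 q hq) ∨ i ∈ S) :
    ∀ i ∈ T, ¬ prc bl w (w ⟨q + 1, hq⟩) i := by
  intro i hi hp
  have hq1 : w ⟨q + 1, hq⟩ = w (q1 q hq) := rfl
  rw [hq1] at hp
  rcases hT i hi with h | h
  · rw [h] at hp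
    exact lt_irrefl _ hp.1
  · exact hb (hid _ _ h hp)

/-- maximality (2) -/
theorem TypeTa_max2 (hw : dsc w q hq) (hid : IsId bl w S) (hb : w (q1 q hq) ∉ S)
    (hab : bl (w (q1 q hq)) = bl (w (q0 q hq))) :
    ∀ i ∈ insert (w (q1 q hq)) S, ¬ prc bl (w * sr q hq) ((w * sr q hq) ⟨q + 1, hq⟩) i := by
  intro i hi hp
  have hw' : w (q1 q hq) < w (q0 q hq) := hw
  have hsr1 : (sr q hq) (q1 q hq) = q0 q hq := Equiv.swap_apply_right _ _
  have hv : (w * sr q hq) ⟨q + 1, hq⟩ = w (q0 q hq) := by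
    show w ((sr q hq) (q1 q hq)) = _
    rw [hsr1]
  rw [hv] at hp
  obtain ⟨h1, h2, h3⟩ := hp
  have hinv : (w * sr q hq)⁻¹ = (sr q hq) * w⁻¹ := by
    rw [mul_inv_rev]
    congr 1
  rw [hinv] at h3
  have e1 : ((sr q hq) * w⁻¹) (w (q0 q hq)) = q1 q hq := by
    show (sr q hq) (w⁻¹ (w (q0 q hq))) = _
    rw [TypeTa_inv1]
    exact Equiv.swap_apply_left _ _
  rw [e1] at h3
  have hi0 : i ≠ w (q0 q hq) := fun h => by rw [h] at h1; exact lt_irrefl _ h1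
  have hi1 : i ≠ w (q1 q hq) := fun h => by rw [h] at h1; exact lt_asymm h1 hw'
  have e2 : ((sr q hq) * w⁻¹) i = w⁻¹ i := by
    show (sr q hq) (w⁻¹ i) = _
    refine Equiv.swap_apply_of_ne_of_ne ?_ ?_
    · intro h
      exact hi0 (by rw [← h, TypeTa_inv2])
    · intro h
      exact hi1 (by rw [← h, TypeTa_inv2])
  rw [e2] at h3
  have hi2 : i ∈ S := by
    rcases Finset.mem_insert.mp hi with h | h
    · exact absurd h hi1
    · exact h
  refine hb (hid _ _ hi2 ⟨hw'.trans h1, hab.trans h2, ?_⟩)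
  rw [TypeTa_inv1]
  exact h3

theorem TypeTa_unit {k : ℕ} {b : Matrix (Fin n) (Fin n) ℂ} (hb : IsUpper b)
    (f : Fin k → Fin n) : (∏ p : Fin k, b (f p) (f p)) ≠ 0 :=
  Finset.prod_ne_zero_iff.mpr fun p _ => hb.2 _

theorem Tt_iff (hbl : Monotone bl) (hw : dsc w q hq) (hid : IsId bl w S)
    (ha : w (q0 q hq) ∈ S) (hb : w (q1 q hq) ∉ S) (hab : bl (w (q1 q hq)) = bl (w (q0 q hq)))
    {M : Matrix (Fin n) (Fin n) ℂ} {x : Fin n → ℂ}
    (h : (M, x) ∈ PP bl w (insert (w (q1 q hq)) S) {w (q0 q hq)}) :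
    Fm bl w (q + 1) hq M x = 0 ↔ (M, x) ∈ PP bl w S {w (q0 q hq)} := by
  constructor
  · intro hF
    obtain ⟨β, β', x', hβ, hβ', hx, hN, hM, hx2⟩ := h
    have hM' : M = β * permMat ℂ w * β' := hM
    have hx2' : x = (bdg bl β).mulVec x' := hx2
    refine ⟨β, β', x', hβ, hβ', ?_, hN, hM, hx2⟩
    have h1 := Fm_semi hbl w hβ hβ' hx (q + 1) hq
      (TypeTa_max1 hid hb fun i hi => Finset.mem_insert.mp hi)
    rw [← hM', ← hx2', hF] at h1
    have h2 := TypeTa_unit hβ' (fun p : Fin (q + 1) => Fin.castLE hq.le p)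
    have h3 := TypeTa_unit hβ (fun p : Fin (q + 1 + 1) => w (Fin.castLE hq p))
    have h4 : x' (w ⟨q + 1, hq⟩) = 0 := by
      rcases mul_eq_zero.mp h1.symm with h5 | h5
      · exact absurd h5 (mul_ne_zero h2 h3)
      · exact h5
    intro j hj
    by_cases hjb : j = w (q1 q hq)
    · rw [hjb]
      exact h4
    · refine hx j fun h => ?_
      rcases Finset.mem_insert.mp h with h | h
      · exact hjb h
      · exact hj h
  · rintro ⟨β, β', x', hβ, hβ', hx, hN, hM, hx2⟩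
    have hM' : M = β * permMat ℂ w * β' := hM
    have hx2' : x = (bdg bl β).mulVec x' := hx2
    have h1 := Fm_semi hbl w hβ hβ' hx (q + 1) hq
      (TypeTa_max1 hid hb fun i hi => Or.inr hi)
    rw [hM', hx2', h1]
    have h2 : x' (w ⟨q + 1, hq⟩) = 0 := hx _ hb
    rw [h2, mul_zero]

theorem Tt_ne (hbl : Monotone bl) (hw : dsc w q hq) (hid : IsId bl w S)
    (ha : w (q0 q hq) ∈ S) (hb : w (q1 q hq) ∉ S) (hab : bl (w (q1 q hq)) = bl (w (q0 q hq)))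
    {M : Matrix (Fin n) (Fin n) ℂ} {x : Fin n → ℂ}
    (h : (M, x) ∈ PP bl (w * sr q hq) (insert (w (q1 q hq)) S) {w (q0 q hq)}) :
    Fm bl w (q + 1) hq M x ≠ 0 := by
  obtain ⟨β, β', x', hβ, hβ', hx, hN, hM, hx2⟩ := h
  have hM' : M = β * permMat ℂ (w * sr q hq) * β' := hM
  have hx2' : x = (bdg bl β).mulVec x' := hx2
  have h1 := Fm_semi hbl (w * sr q hq) hβ hβ' hx (q + 1) hq (TypeTa_max2 hw hid hb hab)
  rw [← hM', ← hx2', Fm_rows bl q hq w hab M x] at h1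
  intro h0
  rw [h0, neg_zero] at h1
  have h2 := TypeTa_unit hβ' (fun p : Fin (q + 1) => Fin.castLE hq.le p)
  have h3 := TypeTa_unit hβ (fun p : Fin (q + 1 + 1) => (w * sr q hq) (Fin.castLE hq p))
  have h4 : x' ((w * sr q hq) ⟨q + 1, hq⟩) = 0 := by
    rcases mul_eq_zero.mp h1.symm with h5 | h5
    · exact absurd h5 (mul_ne_zero h2 h3)
    · exact h5
  have hsr1 : (sr q hq) (q1 q hq) = q0 q hq := Equiv.swap_apply_right _ _
  have hv : (w * sr q hq) ⟨q + 1, hq⟩ = w (q0 q hq) := by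
    show w ((sr q hq) (q1 q hq)) = _
    rw [hsr1]
  rw [hv] at h4
  exact hN _ (Finset.mem_singleton_self _) h4

end CE
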